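import Pool.Agent.XCBip.Pr

/-!
# Second moments
-/

set_option autoImplicit false

namespace Pool.Agent.XCBip

open Finset
open scoped Classical

variable {Ω : Type} [Fintype Ω] {ι : Type}

private theorem ba_pr (E : Ω → Prop) :
    pr E = (∑ ω, if E ω then (1 : ℝ) else 0) / Fintype.card Ω := by
  unfold pr
  rw [← sum_filter, sum_const, nsmul_eq_mul, mul_one]

/-- A Markov step: if `X ≥ c` on `F`. -/
private theorem bb_markov [Nonempty Ω] (F : Ω → Prop) (X : Ω → ℝ) (c : ℝ) (h0 : ∀ ω, 0 ≤ X ω)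
    (h : ∀ ω, F ω → c ≤ X ω) : c * pr F ≤ (∑ ω, X ω) / Fintype.card Ω := by
  have hc : (0 : ℝ) < Fintype.card Ω := by exact_mod_cast Fintype.card_pos
  rw [le_div_iff₀ hc, ba_pr, mul_assoc, div_mul_cancel₀ _ hc.ne', mul_sum]
  apply sum_le_sum
  intro ω _
  by_cases hF : F ω
  · simp only [hF, if_true, mul_one]; exact h ω hF
  · simp only [hF, if_false, mul_zero]; exact h0 ω

/-- `E (N - E N)^2 = sum of covariances`, where `N` is the number of events that happen. -/
theorem var_eq [Nonempty Ω] (I : Finset ι) (E : ι → Ω → Prop) :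
    (∑ ω, (((I.filter (fun i => E i ω)).card : ℝ) - ∑ i ∈ I, pr (E i)) ^ 2) / Fintype.card Ω =
      ∑ i ∈ I, ∑ j ∈ I, (pr (fun ω => E i ω ∧ E j ω) - pr (E i) * pr (E j)) := by
  have hc : (Fintype.card Ω : ℝ) ≠ 0 := by exact_mod_cast Fintype.card_ne_zero
  set μ := ∑ i ∈ I, pr (E i) with hμ
  have hN : ∀ ω, ((I.filter (fun i => E i ω)).card : ℝ) = ∑ i ∈ I, if E i ω then (1 : ℝ) else 0 := by
    intro ω
    rw [← sum_filter, sum_const, nsmul_eq_mul, mul_one]
  have h1 : ∑ ω, (∑ i ∈ I, if E i ω then (1 : ℝ) else 0) = μ * Fintype.card Ω := by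
    rw [sum_comm, hμ, sum_mul]
    apply sum_congr rfl
    intro i _
    rw [ba_pr, div_mul_cancel₀ _ hc]
  have h2 : ∑ ω, (∑ i ∈ I, if E i ω then (1 : ℝ) else 0) ^ 2 =
      (∑ i ∈ I, ∑ j ∈ I, pr (fun ω => E i ω ∧ E j ω)) * Fintype.card Ω := by
    have h3 : ∀ ω, (∑ i ∈ I, if E i ω then (1 : ℝ) else 0) ^ 2 =
        ∑ i ∈ I, ∑ j ∈ I, if E i ω ∧ E j ω then (1 : ℝ) else 0 := by
      intro ω
      rw [sq, sum_mul_sum]
      apply sum_congr rfl
      intro i _
      apply sum_congr rfl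
      intro j _
      by_cases hi : E i ω <;> by_cases hj : E j ω <;> simp [hi, hj]
    rw [sum_congr rfl (fun ω _ => h3 ω), sum_comm, sum_mul]
    apply sum_congr rfl
    intro i _
    rw [sum_comm, sum_mul]
    apply sum_congr rfl
    intro j _
    rw [ba_pr, div_mul_cancel₀ _ hc]
    refine sum_congr rfl (fun ω _ => ?_)
    congr
  have h4 : ∑ ω, (((I.filter (fun i => E i ω)).card : ℝ) - μ) ^ 2 =
      (∑ i ∈ I, ∑ j ∈ I, pr (fun ω => E i ω ∧ E j ω)) * Fintype.card Ω -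
        μ ^ 2 * Fintype.card Ω := by
    have h5 : ∀ ω, (((I.filter (fun i => E i ω)).card : ℝ) - μ) ^ 2 =
        (∑ i ∈ I, if E i ω then (1 : ℝ) else 0) ^ 2 -
          2 * μ * (∑ i ∈ I, if E i ω then (1 : ℝ) else 0) + μ ^ 2 := by
      intro ω
      rw [hN ω]; ring
    rw [sum_congr rfl (fun ω _ => h5 ω), sum_add_distrib, sum_sub_distrib, ← mul_sum, h1, h2,
      sum_const, card_univ, nsmul_eq_mul]
    ring
  rw [h4, ← sub_mul, mul_div_assoc, div_self hc, mul_one]
  have h6 : μ ^ 2 = ∑ i ∈ I, ∑ j ∈ I, pr (E i) * pr (E j) := by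
    rw [sq, hμ, sum_mul_sum]
  rw [h6, ← sum_sub_distrib]
  apply sum_congr rfl
  intro i _
  rw [← sum_sub_distrib]


theorem cheb0 (I : Finset ι) (E : ι → Ω → Prop) :
    (∑ i ∈ I, pr (E i)) ^ 2 * pr (fun ω => ∀ i ∈ I, ¬ E i ω) ≤
      ∑ i ∈ I, ∑ j ∈ I, (pr (fun ω => E i ω ∧ E j ω) - pr (E i) * pr (E j)) := by
  rcases isEmpty_or_nonempty Ω with hΩ | hΩ
  · have h0 : ∀ F : Ω → Prop, pr F = 0 := by
      intro F
      unfold pr
      simp
    simp [h0]
  rw [← var_eq I E]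
  apply bb_markov
  · intro ω; positivity
  · intro ω hω
    have : (I.filter (fun i => E i ω)) = ∅ := filter_eq_empty_iff.mpr (fun i hi => hω i hi)
    rw [this]
    simp


theorem chebhalf (I : Finset ι) (E : ι → Ω → Prop) :
    (∑ i ∈ I, pr (E i)) ^ 2 *
        pr (fun ω => 2 * ((I.filter (fun i => E i ω)).card : ℝ) < ∑ i ∈ I, pr (E i)) ≤
      4 * ∑ i ∈ I, ∑ j ∈ I, (pr (fun ω => E i ω ∧ E j ω) - pr (E i) * pr (E j)) := by
  rcases isEmpty_or_nonempty Ω with hΩ | hΩ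
  · have h0 : ∀ F : Ω → Prop, pr F = 0 := by
      intro F
      unfold pr
      simp
    simp [h0]
  rw [← var_eq I E]
  have := bb_markov (fun ω => 2 * ((I.filter (fun i => E i ω)).card : ℝ) < ∑ i ∈ I, pr (E i))
    (fun ω => (((I.filter (fun i => E i ω)).card : ℝ) - ∑ i ∈ I, pr (E i)) ^ 2)
    ((∑ i ∈ I, pr (E i)) ^ 2 / 4) (fun ω => by positivity)
    (by
      intro ω hω
      have h1 : (0 : ℝ) ≤ ((I.filter (fun i => E i ω)).card : ℝ) := by positivity
      nlinarith)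
  linarith


/-- Pairwise independent events. -/
theorem cheb0_pw (I : Finset ι) (E : ι → Ω → Prop) (p : ℝ) (hp : 0 < p) (hI : I.Nonempty)
    (h1 : ∀ i ∈ I, pr (E i) = p)
    (h2 : ∀ i ∈ I, ∀ j ∈ I, i ≠ j → pr (fun ω => E i ω ∧ E j ω) ≤ p ^ 2) :
    pr (fun ω => ∀ i ∈ I, ¬ E i ω) ≤ 1 / (I.card * p) := by
  have hc : (0 : ℝ) < I.card := by exact_mod_cast hI.card_pos
  have hcov : ∑ i ∈ I, ∑ j ∈ I, (pr (fun ω => E i ω ∧ E j ω) - pr (E i) * pr (E j)) ≤
      I.card * p := by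
    rw [← nsmul_eq_mul, ← sum_const]
    apply sum_le_sum
    intro i hi
    have h3 : ∀ j ∈ I, pr (fun ω => E i ω ∧ E j ω) - pr (E i) * pr (E j) ≤
        if j = i then p else 0 := by
      intro j hj
      rw [h1 i hi, h1 j hj]
      by_cases hji : j = i
      · subst hji
        rw [if_pos rfl]
        have : pr (fun ω => E j ω ∧ E j ω) = p := by
          rw [← h1 j hj]; congr 1; ext ω; simp
        rw [this]
        nlinarith
      · rw [if_neg hji]
        have := h2 i hi j hj (fun h => hji h.symm)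
        nlinarith
    refine (sum_le_sum h3).trans (le_of_eq ?_)
    rw [sum_ite_eq' I i]
    simp [hi]
  have h4 := cheb0 I E
  have h5 : ∑ i ∈ I, pr (E i) = I.card * p := by
    rw [sum_congr rfl h1, sum_const, nsmul_eq_mul]
  rw [h5] at h4
  rw [le_div_iff₀ (by positivity)]
  have h6 : (I.card * p) * ((I.card * p) * pr (fun ω => ∀ i ∈ I, ¬ E i ω)) ≤
      (I.card * p) * 1 := by nlinarith
  have := le_of_mul_le_mul_left h6 (by positivity)
  linarith


theorem chebhalf_pw (I : Finset ι) (E : ι → Ω → Prop) (p : ℝ) (hp : 0 < p) (hI : I.Nonempty)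
    (h1 : ∀ i ∈ I, pr (E i) = p)
    (h2 : ∀ i ∈ I, ∀ j ∈ I, i ≠ j → pr (fun ω => E i ω ∧ E j ω) ≤ p ^ 2) :
    pr (fun ω => 2 * ((I.filter (fun i => E i ω)).card : ℝ) < I.card * p) ≤
      4 / (I.card * p) := by
  have hc : (0 : ℝ) < I.card := by exact_mod_cast hI.card_pos
  have hcov : ∑ i ∈ I, ∑ j ∈ I, (pr (fun ω => E i ω ∧ E j ω) - pr (E i) * pr (E j)) ≤
      I.card * p := by
    rw [← nsmul_eq_mul, ← sum_const]
    apply sum_le_sum
    intro i hi
    have h3 : ∀ j ∈ I, pr (fun ω => E i ω ∧ E j ω) - pr (E i) * pr (E j) ≤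
        if j = i then p else 0 := by
      intro j hj
      rw [h1 i hi, h1 j hj]
      by_cases hji : j = i
      · subst hji
        rw [if_pos rfl]
        have : pr (fun ω => E j ω ∧ E j ω) = p := by
          rw [← h1 j hj]; congr 1; ext ω; simp
        rw [this]
        nlinarith
      · rw [if_neg hji]
        have := h2 i hi j hj (fun h => hji h.symm)
        nlinarith
    refine (sum_le_sum h3).trans (le_of_eq ?_)
    rw [sum_ite_eq' I i]
    simp [hi]
  have h4 := chebhalf I E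
  have h5 : ∑ i ∈ I, pr (E i) = I.card * p := by
    rw [sum_congr rfl h1, sum_const, nsmul_eq_mul]
  rw [h5] at h4
  rw [le_div_iff₀ (by positivity)]
  have h6 : (I.card * p) * ((I.card * p) *
      pr (fun ω => 2 * ((I.filter (fun i => E i ω)).card : ℝ) < I.card * p)) ≤
      (I.card * p) * 4 := by nlinarith
  have := le_of_mul_le_mul_left h6 (by positivity)
  linarith

end Pool.Agent.XCBip
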