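import Pool.Agent.XCBip.Pr

/-!
# The design

`P` points, `L` lines, `Z` a finite group of quadratic functions `chi z : P → F_2`.
`D0 z l`: `chi z` is constant on the line `l` (in a way that is additive in `z`), `D z l`: it is
constant and equal to `1`.
-/

set_option autoImplicit false

namespace Pool.Agent.XCBip

open Finset
open scoped Classical

/-- Number of incidences between `A` and `B`. -/
noncomputable def nin {P L : Type} (inc : P → L → Prop) (A : Finset P) (B : Finset L) : ℕ :=
  ((A ×ˢ B).filter (fun x => inc x.1 x.2)).card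

/-- The design over the field with `q` elements. -/
structure Design (P L Z : Type) [Fintype P] [Fintype L] [AddCommGroup Z] [Fintype Z] (q : ℝ) where
  inc : P → L → Prop
  chi : Z → P → ZMod 2
  D0 : Z → L → Prop
  D : Z → L → Prop
  good : Z → Prop
  chi_add : ∀ z z' p, chi (z + z') p = chi z p + chi z' p
  D_chi : ∀ z l p, D z l → inc p l → chi z p = 1
  pr_chi : ∀ p, pr (fun z => chi z p = 0) = 1 / 2
  pr_chi2 : ∀ p p', p ≠ p' → pr (fun z => chi z p = 0 ∧ chi z p' = 0) = 1 / 4
  pr_D : ∀ l, pr (fun z => D z l) = 1 / (2 * q)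
  pr_D2 : ∀ l l', l ≠ l' → pr (fun z => D z l ∧ D z l') ≤ 1 / (2 * q ^ 2)
  pr_D0 : ∀ l, pr (fun z => D0 z l) = 1 / q
  pr_D02 : ∀ l l', l ≠ l' → pr (fun z => D0 z l ∧ D0 z l') ≤ 1 / q ^ 2
  good_D : ∀ z l, good z → D0 z l → D z l
  pr_good : 1 / 4 ≤ pr good
  nin_le : ∀ (A : Finset P) (B : Finset L),
    (nin inc A B : ℝ) ≤ B.card + A.card * Real.sqrt B.card
  nin_all : (nin inc univ univ : ℝ) = q ^ 3

section
variable {P L Z : Type} [Fintype P] [Fintype L] [AddCommGroup Z] [Fintype Z] {q : ℝ}
  (X : Design P L Z q) {t : ℕ}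

/-- The points of the stable set. -/
def Kp (z : Fin t → Z) (p : P) : Prop := ∀ i, X.chi (z i) p = 0

/-- The lines of the stable set. -/
def Lp (z : Fin t → Z) (l : L) : Prop := ∃ w : Finset (Fin t), w.Nonempty ∧ X.D (∑ i ∈ w, z i) l

/-- Many good vectors. -/
def Gp (z : Fin t → Z) : Prop := t ≤ 8 * (univ.filter (fun i => X.good (z i))).card

theorem chi_sum (z : Fin t → Z) (w : Finset (Fin t)) (p : P) :
    X.chi (∑ i ∈ w, z i) p = ∑ i ∈ w, X.chi (z i) p := by
  induction w using Finset.induction_on with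
  | empty =>
    have h := X.chi_add 0 0 p
    rw [add_zero] at h
    simp only [sum_empty]
    exact left_eq_add.mp h
  | insert i w hi ih =>
    rw [sum_insert hi, sum_insert hi, X.chi_add, ih]


/-- `K` and `L'` form a stable set. -/
theorem stab (z : Fin t → Z) (p : P) (l : L) (hl : Lp X z l) (hpl : X.inc p l) : ¬ Kp X z p := by
  intro hK
  obtain ⟨w, _, hD⟩ := hl
  have h1 := X.D_chi _ l p hD hpl
  rw [chi_sum X z w p, sum_eq_zero (fun i _ => hK i)] at h1
  exact absurd h1 (by decide)

end

end Pool.Agent.XCBip
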