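import Pool.Agent.XCBip.Des

/-!
# The affine plane over a field with `2^m` elements
-/

set_option autoImplicit false

namespace Pool.Agent.XCBip

open Finset
open scoped Classical

section
variable (F : Type) [Field F] [Fintype F] [CharP F 2] [Algebra (ZMod 2) F]

/-- The trace. -/
noncomputable def Tr : F →+ ZMod 2 := (Algebra.trace (ZMod 2) F).toAddMonoidHom

theorem Tr_sq (x : F) : Tr F (x ^ 2) = Tr F x := by
  have h := Algebra.trace_eq_of_algEquiv
    (FiniteField.frobeniusAlgEquivOfAlgebraic (ZMod 2) F) x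
  have h2 : FiniteField.frobeniusAlgEquivOfAlgebraic (ZMod 2) F x = x ^ 2 := by
    rw [FiniteField.coe_frobeniusAlgEquivOfAlgebraic]
    simp [ZMod.card]
  rw [h2] at h
  exact h

theorem Tr_ne (x : F) (hx : x ≠ 0) : ∃ c : F, Tr F (c * x) = 1 := by
  by_contra hc
  push Not at hc
  apply hx
  have h := (traceForm_nondegenerate (ZMod 2) F).1 x
  apply h
  intro y
  rw [Algebra.traceForm_apply, mul_comm]
  by_contra h0
  apply hc y
  have h1 : ∀ e : ZMod 2, e ≠ 0 → e = 1 := by decide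
  exact h1 _ h0

/-- The group of the functions `Tr (be x y + la x + mu y) + ta`. -/
abbrev ZZ : Type := F × F × F × ZMod 2

/-- `chi z (x, y)` -/
noncomputable def fchi (z : ZZ F) (p : F × F) : ZMod 2 :=
  Tr F (z.1 * p.1 * p.2 + z.2.1 * p.1 + z.2.2.1 * p.2) + z.2.2.2

/-- The point `(x, y)` is on the line `(a, b)`. -/
def finc (p l : F × F) : Prop := p.2 = l.1 * p.1 + l.2

/-- `chi z` is constant on the line `l`. -/
def fh (l : F × F) (z : ZZ F) : F :=
  z.1 * l.1 + (z.1 * l.2 + z.2.1 + z.2.2.1 * l.1) ^ 2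

/-- The constant. -/
noncomputable def fc (l : F × F) (z : ZZ F) : ZMod 2 := Tr F (z.2.2.1 * l.2) + z.2.2.2

/-- Good vectors. -/
def fgood (z : ZZ F) : Prop := z.1 ≠ 0 ∧ Tr F (z.2.2.1 * z.2.1 / z.1) + z.2.2.2 = 1

theorem fchi_add (z z' : ZZ F) (p : F × F) : fchi F (z + z') p = fchi F z p + fchi F z' p := by
  have h1 : (z + z').1 * p.1 * p.2 + (z + z').2.1 * p.1 + (z + z').2.2.1 * p.2 =
      (z.1 * p.1 * p.2 + z.2.1 * p.1 + z.2.2.1 * p.2) +
        (z'.1 * p.1 * p.2 + z'.2.1 * p.1 + z'.2.2.1 * p.2) := by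
    simp only [Prod.fst_add, Prod.snd_add]
    ring
  unfold fchi
  rw [h1, map_add]
  simp only [Prod.snd_add]
  ring

theorem fh_add (l : F × F) (z z' : ZZ F) : fh F l (z + z') = fh F l z + fh F l z' := by
  have h1 : (z + z').1 * l.2 + (z + z').2.1 + (z + z').2.2.1 * l.1 =
      (z.1 * l.2 + z.2.1 + z.2.2.1 * l.1) + (z'.1 * l.2 + z'.2.1 + z'.2.2.1 * l.1) := by
    simp only [Prod.fst_add, Prod.snd_add]
    ring
  unfold fh
  rw [h1, CharTwo.add_sq]
  simp only [Prod.fst_add]
  ring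

theorem fc_add (l : F × F) (z z' : ZZ F) : fc F l (z + z') = fc F l z + fc F l z' := by
  have h1 : (z + z').2.2.1 * l.2 = z.2.2.1 * l.2 + z'.2.2.1 * l.2 := by
    simp only [Prod.fst_add, Prod.snd_add]
    ring
  unfold fc
  rw [h1, map_add]
  simp only [Prod.snd_add]
  ring

/-- On a line with `fh = 0` the function is constant. -/
theorem fchi_line (z : ZZ F) (l p : F × F) (h : fh F l z = 0) (hp : finc F p l) :
    fchi F z p = fc F l z := by
  unfold finc at hp
  unfold fh at h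
  unfold fchi fc
  have h1 : Tr F ((z.1 * l.1 + (z.1 * l.2 + z.2.1 + z.2.2.1 * l.1) ^ 2) * p.1 ^ 2) = 0 := by
    rw [h, zero_mul, map_zero]
  have h2 : (z.1 * l.1 + (z.1 * l.2 + z.2.1 + z.2.2.1 * l.1) ^ 2) * p.1 ^ 2 =
      z.1 * l.1 * p.1 ^ 2 + ((z.1 * l.2 + z.2.1 + z.2.2.1 * l.1) * p.1) ^ 2 := by ring
  rw [h2, map_add, Tr_sq, ← map_add] at h1
  have h3 : z.1 * p.1 * p.2 + z.2.1 * p.1 + z.2.2.1 * p.2 =
      (z.1 * l.1 * p.1 ^ 2 + (z.1 * l.2 + z.2.1 + z.2.2.1 * l.1) * p.1) + z.2.2.1 * l.2 := by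
    rw [hp]
    ring
  rw [h3, map_add, h1, zero_add]

theorem fgood_D (z : ZZ F) (l : F × F) (hg : fgood F z) (h : fh F l z = 0) : fc F l z = 1 := by
  obtain ⟨h0, h1⟩ := hg
  unfold fh at h
  unfold fc
  rw [← h1]
  congr 1
  have h2 : z.1 * l.1 = (z.1 * l.2 + z.2.1 + z.2.2.1 * l.1) ^ 2 := CharTwo.add_eq_zero.1 h
  have h3 : Tr F (z.2.2.1 * (z.1 * l.2 + z.2.1 + z.2.2.1 * l.1) / z.1) +
      Tr F ((z.2.2.1 * (z.1 * l.2 + z.2.1 + z.2.2.1 * l.1) / z.1) ^ 2) = 0 := by
    rw [Tr_sq]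
    exact CharTwo.add_self_eq_zero _
  rw [← map_add] at h3
  have h4 : z.2.2.1 * l.2 = z.2.2.1 * z.2.1 / z.1 +
      (z.2.2.1 * (z.1 * l.2 + z.2.1 + z.2.2.1 * l.1) / z.1 +
      (z.2.2.1 * (z.1 * l.2 + z.2.1 + z.2.2.1 * l.1) / z.1) ^ 2) := by
    have h5 : (z.2.2.1 * (z.1 * l.2 + z.2.1 + z.2.2.1 * l.1) / z.1) ^ 2 =
        z.2.2.1 ^ 2 * l.1 / z.1 := by
      rw [div_pow, mul_pow, ← h2]
      field_simp
    rw [h5]
    have h6 : z.2.2.1 * z.2.1 / z.1 + (z.2.2.1 * (z.1 * l.2 + z.2.1 + z.2.2.1 * l.1) / z.1 +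
        z.2.2.1 ^ 2 * l.1 / z.1) = z.2.2.1 * l.2 + (z.2.2.1 * z.2.1 / z.1 + z.2.2.1 * z.2.1 / z.1) +
          (z.2.2.1 ^ 2 * l.1 / z.1 + z.2.2.1 ^ 2 * l.1 / z.1) := by
      field_simp
      ring
    rw [h6, CharTwo.add_self_eq_zero, CharTwo.add_self_eq_zero, add_zero, add_zero]
  rw [h4, map_add, h3, add_zero]

private theorem fc_pt {H : Type} [Fintype H] (E : H → Prop) (a : H) (hE : ∀ x, E x ↔ x = a) :
    pr E = 1 / (Fintype.card H : ℝ) := by
  unfold pr
  have h : univ.filter (fun x => E x) = {a} := by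
    ext x
    simp [hE]
  rw [h, card_singleton, Nat.cast_one]

private theorem fc_hom {H : Type} [AddCommGroup H] [Fintype H] (f : ZZ F → H)
    (hf : ∀ z z', f (z + z') = f z + f z') (hs : Function.Surjective f) (E : H → Prop) :
    pr (fun z => E (f z)) = pr E := by
  have h0 : f 0 = 0 := by
    have := hf 0 0
    rw [add_zero] at this
    exact left_eq_add.1 this
  exact pr_hom (⟨⟨f, h0⟩, hf⟩ : ZZ F →+ H) hs E

theorem f_chi (p : F × F) : pr (fun z : ZZ F => fchi F z p = 0) = 1 / 2 := by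
  refine (fc_hom F (fun z => fchi F z p) (fun z z' => fchi_add F z z' p) ?_
    (fun e => e = 0)).trans ?_
  · intro e
    refine ⟨(0, 0, 0, e), ?_⟩
    simp [fchi]
  · rw [fc_pt _ 0 (fun _ => Iff.rfl), ZMod.card]
    norm_num

/-- `z ↦ (chi z p, chi z p')` is onto. -/
theorem f_chi2 (p p' : F × F) (h : p ≠ p') :
    pr (fun z : ZZ F => fchi F z p = 0 ∧ fchi F z p' = 0) = 1 / 4 := by
  refine (fc_hom F (fun z => (fchi F z p, fchi F z p')) (fun z z' => ?_) ?_
    (fun e => e.1 = 0 ∧ e.2 = 0)).trans ?_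
  · simp only [fchi_add, Prod.mk_add_mk]
  · have hsep : ∃ z : ZZ F, fchi F z p = 0 ∧ fchi F z p' = 1 := by
      by_cases hx : p.1 = p'.1
      · have hy : p'.2 - p.2 ≠ 0 := by
          intro h0
          apply h
          ext
          · exact hx
          · exact (sub_eq_zero.1 h0).symm
        obtain ⟨c, hc⟩ := Tr_ne F _ hy
        refine ⟨(0, 0, c, Tr F (c * p.2)), ?_, ?_⟩
        · simp [fchi, CharTwo.add_self_eq_zero]
        · rw [mul_sub, map_sub, CharTwo.sub_eq_add] at hc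
          simp [fchi, hc]
      · have hy : p'.1 - p.1 ≠ 0 := fun h0 => hx (sub_eq_zero.1 h0).symm
        obtain ⟨c, hc⟩ := Tr_ne F _ hy
        refine ⟨(0, c, 0, Tr F (c * p.1)), ?_, ?_⟩
        · simp [fchi, CharTwo.add_self_eq_zero]
        · rw [mul_sub, map_sub, CharTwo.sub_eq_add] at hc
          simp [fchi, hc]
    obtain ⟨z, hz0, hz1⟩ := hsep
    have hd : ∀ a b : ZMod 2, a = b ∨ b = a + 1 := by decide
    rintro ⟨a, b⟩
    rcases hd a b with hab | hab
    · refine ⟨(0, 0, 0, a), ?_⟩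
      simp [fchi, hab]
    · refine ⟨z + (0, 0, 0, a), ?_⟩
      simp only [fchi_add, hz0, hz1, hab]
      simp [fchi, add_comm]
  · rw [fc_pt _ (0, 0) (fun x => by simp [Prod.ext_iff]), Fintype.card_prod, ZMod.card]
    norm_num

private theorem fd_sq (u : F) : ∃ a : F, a ^ 2 = u := by
  obtain ⟨a, ha⟩ := FiniteField.isSquare_of_char_two (F := F) (ringChar.eq F 2) u
  exact ⟨a, by rw [sq, ha]⟩

/-- `z ↦ (fh z, fc z)` is onto. -/
theorem f_D (l : F × F) :
    pr (fun z : ZZ F => fh F l z = 0 ∧ fc F l z = 1) = 1 / (2 * (Fintype.card F : ℝ)) := by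
  refine (fc_hom F (fun z => (fh F l z, fc F l z)) (fun z z' => ?_) ?_
    (fun e => e.1 = 0 ∧ e.2 = 1)).trans ?_
  · simp only [fh_add, fc_add, Prod.mk_add_mk]
  · rintro ⟨u, e⟩
    obtain ⟨a, ha⟩ := fd_sq F u
    refine ⟨(0, a, 0, e), ?_⟩
    simp [fh, fc, ha]
  · rw [fc_pt _ (0, 1) (fun x => by simp [Prod.ext_iff]), Fintype.card_prod, ZMod.card]
    push_cast
    rw [mul_comm]

theorem f_D0 (l : F × F) : pr (fun z : ZZ F => fh F l z = 0) = 1 / (Fintype.card F : ℝ) := by
  refine (fc_hom F (fun z => fh F l z) (fun z z' => fh_add F l z z') ?_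
    (fun e => e = 0)).trans ?_
  · intro u
    obtain ⟨a, ha⟩ := fd_sq F u
    refine ⟨(0, a, 0, 0), ?_⟩
    simp [fh, ha]
  · rw [fc_pt _ 0 (fun _ => Iff.rfl)]

/-- `z ↦ (fh l z, fh l' z, fc l z)` is onto: if the slopes differ take `be = 0` and use
`(la + mu a)^2`, `(la + mu a')^2`; if they agree, `fh l z + fh l' z = (be (b - b'))^2`, so first
choose `be`, then `la`. `ta` only enters in `fc`. -/
theorem f_onto (l l' : F × F) (h : l ≠ l') (u v : F) (e : ZMod 2) :
    ∃ z : ZZ F, fh F l z = u ∧ fh F l' z = v ∧ fc F l z = e := by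
  obtain ⟨a, b⟩ := l
  obtain ⟨a', b'⟩ := l'
  by_cases hs : a = a'
  · subst hs
    have hb : b - b' ≠ 0 := by
      intro h0
      apply h
      rw [sub_eq_zero.1 h0]
    obtain ⟨r, hr⟩ := fd_sq F (u + v)
    obtain ⟨s, hs⟩ := fd_sq F (u - r / (b - b') * a)
    refine ⟨(r / (b - b'), s - r / (b - b') * b, 0, e), ?_, ?_, ?_⟩
    · simp [fh, hs]
    · have h1 : r / (b - b') * b' + (s - r / (b - b') * b) + 0 * a = s - r := by
        field_simp
        ring
      simp only [fh]
      rw [h1, CharTwo.sub_eq_add s r, CharTwo.add_sq, hr, hs]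
      have h2 : (2 : F) = 0 := CharTwo.two_eq_zero
      linear_combination u * h2
    · simp [fc]
  · have hs' : a - a' ≠ 0 := sub_ne_zero.2 hs
    obtain ⟨r, hr⟩ := fd_sq F u
    obtain ⟨s, hs2⟩ := fd_sq F v
    refine ⟨(0, r - (r - s) / (a - a') * a, (r - s) / (a - a'),
      e - Tr F ((r - s) / (a - a') * b)), ?_, ?_, ?_⟩
    · simp [fh, hr]
    · have h1 : (0 : F) * b' + (r - (r - s) / (a - a') * a) + (r - s) / (a - a') * a' = s := by
        field_simp
        ring
      simp only [fh]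
      rw [h1, hs2, zero_mul, zero_add]
    · simp [fc]

theorem f_D2 (l l' : F × F) (h : l ≠ l') :
    pr (fun z : ZZ F => (fh F l z = 0 ∧ fc F l z = 1) ∧ (fh F l' z = 0 ∧ fc F l' z = 1)) ≤
      1 / (2 * (Fintype.card F : ℝ) ^ 2) := by
  have hc : (0 : ℝ) < (Fintype.card F : ℝ) := by exact_mod_cast Fintype.card_pos
  have h1 : pr (fun z : ZZ F => (fh F l z = 0 ∧ fc F l z = 1) ∧ (fh F l' z = 0 ∧ fc F l' z = 1)) ≤
      pr (fun z : ZZ F => fh F l z = 0 ∧ fh F l' z = 0 ∧ fc F l z = 1) :=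
    pr_mono (fun z hz => ⟨hz.1.1, hz.2.1, hz.1.2⟩)
  refine h1.trans (le_of_eq ?_)
  refine (fc_hom F (fun z => (fh F l z, fh F l' z, fc F l z)) (fun z z' => ?_) ?_
    (fun e => e.1 = 0 ∧ e.2.1 = 0 ∧ e.2.2 = 1)).trans ?_
  · simp only [fh_add, fc_add, Prod.mk_add_mk]
  · rintro ⟨u, v, e⟩
    obtain ⟨z, hz1, hz2, hz3⟩ := f_onto F l l' h u v e
    exact ⟨z, by simp only [hz1, hz2, hz3]⟩
  · rw [fc_pt _ (0, 0, 1) (fun x => by simp [Prod.ext_iff]), Fintype.card_prod,
      Fintype.card_prod, ZMod.card]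
    push_cast
    congr 1
    ring

theorem f_D02 (l l' : F × F) (h : l ≠ l') :
    pr (fun z : ZZ F => fh F l z = 0 ∧ fh F l' z = 0) ≤ 1 / (Fintype.card F : ℝ) ^ 2 := by
  refine le_of_eq ?_
  refine (fc_hom F (fun z => (fh F l z, fh F l' z)) (fun z z' => ?_) ?_
    (fun e => e.1 = 0 ∧ e.2 = 0)).trans ?_
  · simp only [fh_add, Prod.mk_add_mk]
  · rintro ⟨u, v⟩
    obtain ⟨z, hz1, hz2, hz3⟩ := f_onto F l l' h u v 0
    exact ⟨z, by simp only [hz1, hz2]⟩
  · rw [fc_pt _ (0, 0) (fun x => by simp [Prod.ext_iff]), Fintype.card_prod]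
    push_cast
    congr 1
    ring

theorem f_good : 1 / 4 ≤ pr (fun z : ZZ F => fgood F z) := by
  have hq : 2 ≤ Fintype.card F := Fintype.one_lt_card
  have hcard : (Fintype.card F - 1) * (Fintype.card F * Fintype.card F) ≤
      (univ.filter (fun z : ZZ F => fgood F z)).card := by
    have h1 : ((univ.filter (fun b : F => b ≠ 0)) ×ˢ (univ : Finset (F × F))).card =
        (Fintype.card F - 1) * (Fintype.card F * Fintype.card F) := by
      rw [card_product, card_univ, Fintype.card_prod]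
      congr 1
      rw [filter_ne', card_erase_of_mem (mem_univ _), card_univ]
    rw [← h1]
    apply card_le_card_of_injOn (fun x : F × F × F =>
      ((x.1, x.2.1, x.2.2, 1 - Tr F (x.2.2 * x.2.1 / x.1)) : ZZ F))
    · intro x hx
      simp only [coe_product, coe_filter, mem_univ, true_and, coe_univ, Set.mem_prod,
        Set.mem_setOf_eq, Set.mem_univ, and_true] at hx
      simp only [coe_filter, mem_univ, true_and, Set.mem_setOf_eq]
      exact ⟨hx, by simp⟩
    · intro x _ y _ hxy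
      simp only [Prod.mk.injEq] at hxy
      obtain ⟨h1, h2, h3, _⟩ := hxy
      exact Prod.ext h1 (Prod.ext h2 h3)
  unfold pr
  have hq' : (2 : ℝ) ≤ Fintype.card F := by exact_mod_cast hq
  have htot : (Fintype.card (ZZ F) : ℝ) = 2 * (Fintype.card F : ℝ) ^ 3 := by
    simp only [ZZ, Fintype.card_prod, ZMod.card]
    push_cast
    ring
  rw [htot, div_le_div_iff₀ (by norm_num) (by positivity)]
  have h2 : ((Fintype.card F : ℝ) - 1) * ((Fintype.card F : ℝ) * Fintype.card F) ≤
      ((univ.filter (fun z : ZZ F => fgood F z)).card : ℝ) := by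
    have h3 : (((Fintype.card F - 1) * (Fintype.card F * Fintype.card F) : ℕ) : ℝ) ≤
      ((univ.filter (fun z : ZZ F => fgood F z)).card : ℝ) := by exact_mod_cast hcard
    rw [Nat.cast_mul, Nat.cast_sub (by omega), Nat.cast_mul, Nat.cast_one] at h3
    exact h3
  have h4 : (0 : ℝ) ≤ (Fintype.card F : ℝ) ^ 2 := by positivity
  nlinarith


/-- Two different points are on at most one common line; Cauchy-Schwarz. -/
theorem f_nin (A B : Finset (F × F)) :
    (nin (finc F) A B : ℝ) ≤ B.card + A.card * Real.sqrt B.card := by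
  set I : ℝ := (nin (finc F) A B : ℝ) with hI
  have hI1 : I = ∑ l ∈ B, ((A.filter (fun p => finc F p l)).card : ℝ) := by
    rw [hI]
    unfold nin
    rw [card_filter, sum_product_right]
    push_cast
    apply sum_congr rfl
    intro l _
    rw [card_filter]
    push_cast
    rfl
  have hI2 : I = ∑ p ∈ A, ((B.filter (fun l => finc F p l)).card : ℝ) := by
    rw [hI]
    unfold nin
    rw [card_filter, sum_product]
    push_cast
    apply sum_congr rfl
    intro l _
    rw [card_filter]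
    push_cast
    rfl
  have hsq : ∑ l ∈ B, ((A.filter (fun p => finc F p l)).card : ℝ) ^ 2 ≤
      I + (A.card : ℝ) ^ 2 := by
    have h1 : ∀ l ∈ B, ((A.filter (fun p => finc F p l)).card : ℝ) ^ 2 =
        ∑ p ∈ A, ∑ p' ∈ A, if finc F p l ∧ finc F p' l then (1 : ℝ) else 0 := by
      intro l _
      rw [card_filter]
      push_cast
      rw [sq, sum_mul_sum]
      apply sum_congr rfl
      intro p _
      apply sum_congr rfl
      intro p' _
      by_cases h : finc F p l <;> by_cases h' : finc F p' l <;> simp [h, h']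
    rw [sum_congr rfl h1, sum_comm]
    have h2 : ∀ p ∈ A, (∑ l ∈ B, ∑ p' ∈ A, if finc F p l ∧ finc F p' l then (1 : ℝ) else 0) ≤
        ((B.filter (fun l => finc F p l)).card : ℝ) + A.card := by
      intro p hp
      rw [sum_comm]
      have h3 : ∀ p' ∈ A, (∑ l ∈ B, if finc F p l ∧ finc F p' l then (1 : ℝ) else 0) ≤
          (if p' = p then ((B.filter (fun l => finc F p l)).card : ℝ) else 0) + 1 := by
        intro p' _
        rw [← sum_filter, sum_const, nsmul_eq_mul, mul_one]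
        by_cases hpp : p' = p
        · subst hpp
          rw [if_pos rfl]
          simp only [and_self]
          linarith
        · rw [if_neg hpp, zero_add]
          have : (B.filter (fun l => finc F p l ∧ finc F p' l)).card ≤ 1 := by
            rw [card_le_one]
            intro l hl l' hl'
            simp only [mem_filter] at hl hl'
            obtain ⟨_, h4, h5⟩ := hl
            obtain ⟨_, h6, h7⟩ := hl'
            unfold finc at h4 h5 h6 h7
            have hx : p.1 ≠ p'.1 := by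
              intro hx
              apply hpp
              apply Prod.ext hx.symm
              rw [h5, h4, hx]
            have h8 : (l.1 - l'.1) * (p.1 - p'.1) = 0 := by
              linear_combination (-1 : F) * h4 + h6 + h5 - h7
            have h9 : l.1 = l'.1 := by
              rcases mul_eq_zero.mp h8 with h | h
              · exact sub_eq_zero.mp h
              · exact absurd (sub_eq_zero.mp h) hx
            apply Prod.ext h9
            rw [h9] at h4
            linear_combination h6 - h4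
          exact_mod_cast this
      refine (sum_le_sum h3).trans (le_of_eq ?_)
      rw [sum_add_distrib, sum_ite_eq' A p, if_pos hp]
      simp
    refine (sum_le_sum h2).trans (le_of_eq ?_)
    rw [sum_add_distrib, ← hI2, sum_const, nsmul_eq_mul, sq]
  have hcs : I ^ 2 ≤ B.card * (I + (A.card : ℝ) ^ 2) := by
    have h2 : (∑ l ∈ B, ((A.filter (fun p => finc F p l)).card : ℝ)) ^ 2 ≤
        B.card * ∑ l ∈ B, ((A.filter (fun p => finc F p l)).card : ℝ) ^ 2 :=
      sq_sum_le_card_mul_sum_sq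
    rw [← hI1] at h2
    exact h2.trans (mul_le_mul_of_nonneg_left hsq (by positivity))
  have hv : (0 : ℝ) ≤ B.card := by positivity
  have hu : (0 : ℝ) ≤ A.card := by positivity
  set r := Real.sqrt B.card with hr
  have hr0 : 0 ≤ r := Real.sqrt_nonneg _
  have hrr : r * r = B.card := Real.mul_self_sqrt hv
  by_contra hcon
  push Not at hcon
  have h1 : (A.card : ℝ) * r < I - B.card := by linarith
  have h2 : (A.card : ℝ) * r < I := by linarith
  have h3 : ((A.card : ℝ) * r) * ((A.card : ℝ) * r) < I * (I - B.card) :=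
    mul_lt_mul'' h2 h1 (by positivity) (by positivity)
  have h4 : ((A.card : ℝ) * r) * ((A.card : ℝ) * r) = (A.card : ℝ) ^ 2 * B.card := by
    rw [← hrr]; ring
  nlinarith

theorem f_all : (nin (finc F) univ univ : ℝ) = (Fintype.card F : ℝ) ^ 3 := by
  have h : nin (finc F) univ univ = Fintype.card (F × F × F) := by
    unfold nin
    rw [← card_univ]
    refine card_bij' (fun x _ => (x.1.1, x.2.1, x.2.2))
      (fun y _ => ((y.1, y.2.1 * y.1 + y.2.2), (y.2.1, y.2.2))) ?_ ?_ ?_ ?_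
    · intro x _
      exact mem_univ _
    · intro y _
      exact mem_filter.2 ⟨mem_product.2 ⟨mem_univ _, mem_univ _⟩, rfl⟩
    · rintro ⟨⟨x, y⟩, a, b⟩ hx
      have h4 : y = a * x + b := (mem_filter.1 hx).2
      simp only [h4]
    · intro y _
      rfl
  rw [h, Fintype.card_prod, Fintype.card_prod]
  push_cast
  ring

/-- The design. -/
noncomputable def fdes : Design (F × F) (F × F) (ZZ F) (Fintype.card F : ℝ) where
  inc := finc F
  chi := fchi F
  D0 z l := fh F l z = 0
  D z l := fh F l z = 0 ∧ fc F l z = 1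
  good := fgood F
  chi_add := fchi_add F
  D_chi z l p h hp := (fchi_line F z l p h.1 hp).trans h.2
  pr_chi := f_chi F
  pr_chi2 := f_chi2 F
  pr_D := f_D F
  pr_D2 := f_D2 F
  pr_D0 := f_D0 F
  pr_D02 := f_D02 F
  good_D z l hg h := ⟨h, fgood_D F z l hg h⟩
  pr_good := f_good F
  nin_le := f_nin F
  nin_all := f_all F

end

end Pool.Agent.XCBip
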