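import Pool.Agent.XCBip.Num
import Pool.Agent.XCBip.Fld
import Pool.Agent.XCPerf.Cover

/-!
# The graphs
-/

set_option autoImplicit false

namespace Pool.Agent.XCBip

open Finset
open scoped Classical

/-- Points, lines and `r` isolated vertices. -/
abbrev Vx (P L : Type) (r : ℕ) : Type := P ⊕ (L ⊕ Fin r)

/-- Adjacency: a point and a line through it. -/
def adjR {P L : Type} {r : ℕ} (inc : P → L → Prop) : Vx P L r → Vx P L r → Prop
  | Sum.inl p, Sum.inr (Sum.inl l) => inc p l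
  | Sum.inr (Sum.inl l), Sum.inl p => inc p l
  | _, _ => False

theorem adjR_symm {P L : Type} {r : ℕ} (inc : P → L → Prop) (u v : Vx P L r)
    (h : adjR inc u v) : adjR inc v u := by
  rcases u with p | l | a <;> rcases v with p' | l' | a' <;> exact h

theorem adjR_irrefl {P L : Type} {r : ℕ} (inc : P → L → Prop) (u : Vx P L r) :
    ¬ adjR inc u u := by
  rcases u with p | l | a <;> exact fun h => h

/-- The graph on `Fin n`. -/
def gr {P L : Type} {r n : ℕ} (inc : P → L → Prop) (e : Vx P L r ≃ Fin n) :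
    SimpleGraph (Fin n) where
  Adj u v := adjR inc (e.symm u) (e.symm v)
  symm := ⟨fun _ _ h => adjR_symm inc _ _ h⟩
  loopless := ⟨fun _ h => adjR_irrefl inc _ h⟩

private def ga_col {P L : Type} {r : ℕ} : Vx P L r → Bool
  | Sum.inl _ => true
  | Sum.inr _ => false

private def ga_stab {P L : Type} {r : ℕ} (K : P → Prop) (M : L → Prop) : Vx P L r → Prop
  | Sum.inl p => K p
  | Sum.inr (Sum.inl l) => M l
  | Sum.inr (Sum.inr _) => False

/-- The graph is bipartite. -/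
theorem gr_bip {P L : Type} {r n : ℕ} (inc : P → L → Prop) (e : Vx P L r ≃ Fin n) :
    ∃ c : Fin n → Bool, ∀ u v, (gr inc e).Adj u v → c u ≠ c v := by
  refine ⟨fun u => ga_col (e.symm u), ?_⟩
  intro u v h
  have h' : adjR inc (e.symm u) (e.symm v) := h
  show ga_col (e.symm u) ≠ ga_col (e.symm v)
  revert h'
  rcases e.symm u with p | l | a <;> rcases e.symm v with p' | l' | a' <;> intro h'
  · exact absurd h' (fun h => h)
  · simp [ga_col]
  · exact absurd h' (fun h => h)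
  · simp [ga_col]
  · exact absurd h' (fun h => h)
  · exact absurd h' (fun h => h)
  · exact absurd h' (fun h => h)
  · exact absurd h' (fun h => h)
  · exact absurd h' (fun h => h)


/-- From an extension to a covering. -/
theorem ext_bound {P L Z : Type} [Fintype P] [Fintype L] [AddCommGroup Z] [Fintype Z] {q : ℝ}
    (X : Design P L Z q) (t : ℕ) (ht : 82 ≤ t) (hq : q = 8 ^ t) {r n : ℕ} (e : Vx P L r ≃ Fin n)
    {k f : ℕ} (A : Fin f → Fin k → ℝ) (b : Fin f → ℝ) (π : (Fin k → ℝ) →ᵃ[ℝ] (Fin n → ℝ))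
    (h : π '' {y : Fin k → ℝ | ∀ i, ∑ j, A i j * y j ≤ b i} =
        convexHull ℝ {x : Fin n → ℝ | ∃ s : Finset (Fin n),
          (∀ u ∈ s, ∀ v ∈ s, ¬ (gr X.inc e).Adj u v) ∧ x = fun i => if i ∈ s then (1:ℝ) else 0}) :
    (2 : ℝ) ^ (7 * t) ≤ 2 ^ 91 * f := by
  obtain ⟨W, hW⟩ := Pool.Agent.XCPerf.cover_of_extension (gr X.inc e) A b π (by convert h)
  refine cover_bound X t ht hq f (fun i => univ.filter (fun p => e (Sum.inl p) ∈ W i))
    (fun i => univ.filter (fun l => e (Sum.inr (Sum.inl l)) ∈ W i)) ?_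
  intro z p l hpl hp hl
  have hadj : (gr X.inc e).Adj (e (Sum.inl p)) (e (Sum.inr (Sum.inl l))) := by
    show adjR X.inc (e.symm (e (Sum.inl p))) (e.symm (e (Sum.inr (Sum.inl l))))
    rw [Equiv.symm_apply_apply, Equiv.symm_apply_apply]
    exact hpl
  obtain ⟨i, hi1, hi2⟩ := hW {e (Sum.inl p), e (Sum.inr (Sum.inl l))}
    (univ.filter (fun v => ga_stab (Kp X z) (Lp X z) (e.symm v)))
    (by
      intro u hu v hv huv
      rw [mem_insert, mem_singleton] at hu hv
      rcases hu with rfl | rfl <;> rcases hv with rfl | rfl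
      · exact absurd rfl huv
      · exact hadj
      · exact hadj.symm
      · exact absurd rfl huv)
    (by
      intro u hu v hv
      rw [mem_filter] at hu hv
      have hu' := hu.2
      have hv' := hv.2
      intro hadj'
      have hadj'' : adjR X.inc (e.symm u) (e.symm v) := hadj'
      revert hu' hv' hadj''
      rcases e.symm u with p | l | a <;> rcases e.symm v with p' | l' | a' <;> intro h1 h2 h3
      · exact h3
      · exact stab X z p l' h2 h3 h1
      · exact h3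
      · exact stab X z p' l h1 h3 h2
      · exact h3
      · exact h3
      · exact h3
      · exact h3
      · exact h3)
    ⟨_, mem_insert_self _ _⟩
    (by
      rw [disjoint_left]
      intro u hu hv
      rw [mem_filter] at hv
      rw [mem_insert, mem_singleton] at hu
      rcases hu with rfl | rfl
      · have := hv.2
        rw [Equiv.symm_apply_apply] at this
        exact hp this
      · have := hv.2
        rw [Equiv.symm_apply_apply] at this
        exact hl this)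
  refine ⟨i, ?_, ?_, ?_, ?_⟩
  · rw [mem_filter]
    exact ⟨mem_univ _, hi1 _ (mem_insert_self _ _)⟩
  · rw [mem_filter]
    exact ⟨mem_univ _, hi1 _ (mem_insert_of_mem (mem_singleton_self _))⟩
  · intro p' hp' hK
    rw [mem_filter] at hp'
    refine hi2 _ ?_ hp'.2
    rw [mem_filter, Equiv.symm_apply_apply]
    exact ⟨mem_univ _, hK⟩
  · intro l' hl' hL
    rw [mem_filter] at hl'
    refine hi2 _ ?_ hl'.2
    rw [mem_filter, Equiv.symm_apply_apply]
    exact ⟨mem_univ _, hL⟩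

/-- At least one inequality is needed: `cover_of_extension` for `K = {v}`, `S = ∅`. -/
theorem one_le {n : ℕ} (hn : 0 < n) (G : SimpleGraph (Fin n)) {k f : ℕ}
    (A : Fin f → Fin k → ℝ) (b : Fin f → ℝ) (π : (Fin k → ℝ) →ᵃ[ℝ] (Fin n → ℝ))
    (h : π '' {y : Fin k → ℝ | ∀ i, ∑ j, A i j * y j ≤ b i} =
        convexHull ℝ {x : Fin n → ℝ | ∃ s : Finset (Fin n),
          (∀ u ∈ s, ∀ v ∈ s, ¬ G.Adj u v) ∧ x = fun i => if i ∈ s then (1:ℝ) else 0}) :
    1 ≤ f := by
  obtain ⟨W, hW⟩ := XCPerf.cover_of_extension G A b π h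
  obtain ⟨i, -, -⟩ := hW {⟨0, hn⟩} ∅
    (by
      intro u hu v hv huv
      rw [Finset.mem_singleton] at hu hv
      exact absurd (hu.trans hv.symm) huv)
    (by intro u hu; simp at hu) (Finset.singleton_nonempty _) (Finset.disjoint_empty_right _)
  exact Nat.succ_le_of_lt (lt_of_le_of_lt (Nat.zero_le _) i.2)

/-- Fields and equivalences: for `2 * 64^t ≤ n` the plane over the field with `8^t` elements fits
into `Fin n`. -/
theorem plane_fits (t n : ℕ) (ht : 82 ≤ t) (hn : 2 * 64 ^ t ≤ n) : ∃ G : SimpleGraph (Fin n),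
    (∃ c : Fin n → Bool, ∀ u v, G.Adj u v → c u ≠ c v) ∧
    ∀ (k f : ℕ) (A : Fin f → Fin k → ℝ) (b : Fin f → ℝ) (π : (Fin k → ℝ) →ᵃ[ℝ] (Fin n → ℝ)),
      π '' {y : Fin k → ℝ | ∀ i, ∑ j, A i j * y j ≤ b i} =
        convexHull ℝ {x : Fin n → ℝ | ∃ s : Finset (Fin n),
          (∀ u ∈ s, ∀ v ∈ s, ¬ G.Adj u v) ∧ x = fun i => if i ∈ s then (1:ℝ) else 0} →
      (2 : ℝ) ^ (7 * t) ≤ 2 ^ 91 * f := by
  have ht3 : 3 * t ≠ 0 := by omega
  let F : Type := GaloisField 2 (3 * t)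
  letI : Fintype F := Fintype.ofFinite F
  have hcard : Fintype.card F = 8 ^ t := by
    have h := GaloisField.card 2 (3 * t) ht3
    have h2 : Fintype.card F = Nat.card (GaloisField 2 (3 * t)) := (Nat.card_eq_fintype_card).symm
    rw [h2, h, pow_mul]
    norm_num
  have hcardR : (Fintype.card F : ℝ) = 8 ^ t := by exact_mod_cast hcard
  let r : ℕ := n - 2 * 64 ^ t
  have hV : Fintype.card (Vx (F × F) (F × F) r) = n := by
    have h64 : (8 : ℕ) ^ t * 8 ^ t = 64 ^ t := by rw [← mul_pow]; norm_num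
    simp only [Vx, Fintype.card_sum, Fintype.card_prod, Fintype.card_fin, hcard, h64]
    omega
  let e : Vx (F × F) (F × F) r ≃ Fin n := Fintype.equivFinOfCardEq hV
  refine ⟨gr (fdes F).inc e, gr_bip _ e, ?_⟩
  intro k f A b π h
  exact ext_bound (fdes F) t ht hcardR e A b π h


/-- `n < 128 * 64^t` gives `n^(7/6) ≤ 2^9 * 2^(7 t)`. -/
theorem num_large (t n : ℕ) (h : n < 128 * 64 ^ t) :
    (n : ℝ) ^ (7 / 6 : ℝ) ≤ 2 ^ 9 * 2 ^ (7 * t) := by
  have h1 : (n : ℝ) ≤ (2 : ℝ) ^ ((6 * t + 7 : ℕ) : ℝ) := by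
    rw [Real.rpow_natCast]
    have : n ≤ 2 ^ (6 * t + 7) := by
      have e : 2 ^ (6 * t + 7) = 128 * 64 ^ t := by
        rw [pow_add, pow_mul]; norm_num; ring
      rw [e]; exact h.le
    exact_mod_cast this
  calc (n : ℝ) ^ (7 / 6 : ℝ) ≤ ((2 : ℝ) ^ ((6 * t + 7 : ℕ) : ℝ)) ^ (7 / 6 : ℝ) :=
        Real.rpow_le_rpow (by positivity) h1 (by norm_num)
    _ = (2 : ℝ) ^ (((6 * t + 7 : ℕ) : ℝ) * (7 / 6)) := by
        rw [← Real.rpow_mul (by norm_num)]
    _ ≤ (2 : ℝ) ^ ((9 + 7 * t : ℕ) : ℝ) := by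
        refine Real.rpow_le_rpow_of_exponent_le (by norm_num) ?_
        push_cast
        linarith
    _ = 2 ^ 9 * 2 ^ (7 * t) := by
        rw [Real.rpow_natCast, pow_add]

theorem main : ∃ c : ℝ, 0 < c ∧ ∀ n : ℕ, ∃ G : SimpleGraph (Fin n),
    (∃ side : Fin n → Bool, ∀ u v, G.Adj u v → side u ≠ side v) ∧
    ∀ (k f : ℕ) (A : Fin f → Fin k → ℝ) (b : Fin f → ℝ) (π : (Fin k → ℝ) →ᵃ[ℝ] (Fin n → ℝ)),
      π '' {y : Fin k → ℝ | ∀ i, ∑ j, A i j * y j ≤ b i} =
        convexHull ℝ {x : Fin n → ℝ | ∃ s : Finset (Fin n),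
          (∀ u ∈ s, ∀ v ∈ s, ¬ G.Adj u v) ∧ x = fun i => if i ∈ s then (1:ℝ) else 0} →
      c * (n : ℝ) ^ (7 / 6 : ℝ) ≤ f := by
  refine ⟨1 / 2 ^ 1000, by positivity, fun n => ?_⟩
  rcases Nat.eq_zero_or_pos n with rfl | hn
  · refine ⟨⊥, ⟨fun _ => true, fun u v h => absurd h (by simp)⟩, ?_⟩
    intro k f A b π _
    rw [Nat.cast_zero, Real.zero_rpow (by norm_num), mul_zero]
    exact Nat.cast_nonneg f
  rcases lt_or_ge n (2 * 64 ^ 82) with h | h
  · refine ⟨⊥, ⟨fun _ => true, fun u v h => absurd h (by simp)⟩, ?_⟩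
    intro k f A b π hπ
    have h1 := one_le hn ⊥ A b π hπ
    have h2 : (1 : ℝ) ≤ f := by exact_mod_cast h1
    refine le_trans ?_ h2
    have h3 : (1 : ℝ) ≤ n := by exact_mod_cast hn
    have h4 : (n : ℝ) ^ (7 / 6 : ℝ) ≤ (n : ℝ) ^ (2 : ℝ) :=
      Real.rpow_le_rpow_of_exponent_le h3 (by norm_num)
    rw [show (2 : ℝ) = ((2 : ℕ) : ℝ) by norm_num, Real.rpow_natCast] at h4
    have h5 : (n : ℝ) ≤ 2 ^ 493 := by
      have : n ≤ 2 ^ 493 := by
        refine h.le.trans (le_of_eq ?_)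
        rw [show (64 : ℕ) = 2 ^ 6 by norm_num, ← pow_mul, ← pow_succ']
      exact_mod_cast this
    have h6 : (n : ℝ) ^ 2 ≤ 2 ^ 1000 := by
      calc (n : ℝ) ^ 2 ≤ (2 ^ 493) ^ 2 := pow_le_pow_left₀ (by positivity) h5 2
        _ = 2 ^ 986 := by rw [← pow_mul]
        _ ≤ 2 ^ 1000 := pow_le_pow_right₀ (by norm_num) (by norm_num)
    rw [one_div, inv_mul_le_iff₀ (by positivity), mul_one]
    exact h4.trans h6
  · set t := Nat.log 64 (n / 2) with ht
    have hn2 : n / 2 ≠ 0 := by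
      have : 1 ≤ 64 ^ 82 := Nat.one_le_pow _ _ (by norm_num)
      omega
    have h1 : 64 ^ t ≤ n / 2 := Nat.pow_log_le_self 64 hn2
    have h2 : n / 2 < 64 ^ (t + 1) := Nat.lt_pow_succ_log_self (by norm_num) _
    have h3 : 82 ≤ t := Nat.le_log_of_pow_le (by norm_num) (by omega)
    obtain ⟨G, hG, hG2⟩ := plane_fits t n h3 (by omega)
    refine ⟨G, hG, ?_⟩
    intro k f A b π hπ
    have h4 := hG2 k f A b π hπ
    have h5 := num_large t n (by rw [pow_succ] at h2; omega)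
    have h6 : (2 : ℝ) ^ 9 * 2 ^ (7 * t) ≤ 2 ^ 100 * f := by
      have : (2 : ℝ) ^ 100 = 2 ^ 9 * 2 ^ 91 := by rw [← pow_add]
      rw [this, mul_assoc]
      exact mul_le_mul_of_nonneg_left h4 (by positivity)
    have h7 : (2 : ℝ) ^ 100 * f ≤ 2 ^ 1000 * f :=
      mul_le_mul_of_nonneg_right (pow_le_pow_right₀ (by norm_num) (by norm_num)) (Nat.cast_nonneg f)
    rw [one_div, inv_mul_le_iff₀ (by positivity)]
    exact h5.trans (h6.trans h7)

end Pool.Agent.XCBip
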