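import Pool.Agent.XCBip.One

/-!
# The weight of a rectangle

`T = 2^t`, `q = T^3`; all rectangles have weight at most `2^90 T^2`.
-/

set_option autoImplicit false

namespace Pool.Agent.XCBip

open Finset
open scoped Classical

private theorem eb_num (T v r u s p : ℝ) (hT : 2 ^ 82 ≤ T) (hr : 0 < r) (hrv : r * r = v)
    (hv : v ≤ 2 ^ 80 * T ^ 3) (hu : 1 ≤ u) (hs2 : 2 ≤ s) (hs : s * r ≤ T ^ 2)
    (hs' : T ^ 2 ≤ 2 * s * r)
    (hp : p ≤ (2 * T ^ 3 / v + 1) / (T - 1))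
    (hp' : p ≤ 4 * s / u + 2 * T / u * ((2 * T ^ 3 / v + 1) / (s - 1))) :
    (v + u * r) * p ≤ 2 ^ 90 * T ^ 2 := by
  have hT0 : 0 < T := by linarith [show (0 : ℝ) < 2 ^ 82 by positivity]
  have hT2 : 2 ≤ T := le_trans (by norm_num) hT
  have hv0 : 0 < v := by rw [← hrv]; positivity
  have hu0 : 0 < u := by linarith
  have hs0 : 0 < s := by linarith
  -- numerator
  have hnum : 2 * T ^ 3 / v + 1 ≤ (2 + 2 ^ 80) * T ^ 3 / v := by
    rw [div_add_one (ne_of_gt hv0)]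
    apply div_le_div_of_nonneg_right _ hv0.le
    nlinarith
  have hnum0 : 0 ≤ 2 * T ^ 3 / v + 1 := by positivity
  -- first part
  have h1 : v * p ≤ 2 * (2 + 2 ^ 80) * T ^ 2 := by
    have hT1 : T / 2 ≤ T - 1 := by linarith
    calc v * p ≤ v * ((2 * T ^ 3 / v + 1) / (T - 1)) := mul_le_mul_of_nonneg_left hp hv0.le
      _ ≤ v * (((2 + 2 ^ 80) * T ^ 3 / v) / (T / 2)) := by
          apply mul_le_mul_of_nonneg_left _ hv0.le
          apply div_le_div₀ (by positivity) hnum (by positivity) hT1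
      _ = 2 * (2 + 2 ^ 80) * T ^ 2 := by
          field_simp
  have h2 : u * r * p ≤ (4 + 8 * (2 + 2 ^ 80)) * T ^ 2 := by
    have hs1 : s / 2 ≤ s - 1 := by linarith
    have h3 : (2 * T ^ 3 / v + 1) / (s - 1) ≤ ((2 + 2 ^ 80) * T ^ 3 / v) / (s / 2) :=
      div_le_div₀ (by positivity) hnum (by positivity) hs1
    have h4 : p ≤ 4 * s / u + 2 * T / u * (((2 + 2 ^ 80) * T ^ 3 / v) / (s / 2)) := by
      refine hp'.trans ?_
      have : 2 * T / u * ((2 * T ^ 3 / v + 1) / (s - 1)) ≤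
          2 * T / u * (((2 + 2 ^ 80) * T ^ 3 / v) / (s / 2)) :=
        mul_le_mul_of_nonneg_left h3 (by positivity)
      linarith
    calc u * r * p ≤ u * r * (4 * s / u + 2 * T / u * (((2 + 2 ^ 80) * T ^ 3 / v) / (s / 2))) :=
          mul_le_mul_of_nonneg_left h4 (by positivity)
      _ = 4 * (s * r) + 4 * (2 + 2 ^ 80) * T ^ 4 / (s * r) := by
          rw [← hrv]
          field_simp
          ring
      _ ≤ 4 * T ^ 2 + 4 * (2 + 2 ^ 80) * T ^ 4 / (T ^ 2 / 2) := by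
          apply add_le_add
          · linarith
          · apply div_le_div_of_nonneg_left (by positivity) (by positivity)
            linarith
      _ = (4 + 8 * (2 + 2 ^ 80)) * T ^ 2 := by
          field_simp
          ring
  have h5 : (0 : ℝ) ≤ T ^ 2 := by positivity
  calc (v + u * r) * p = v * p + u * r * p := by ring
    _ ≤ 2 * (2 + 2 ^ 80) * T ^ 2 + (4 + 8 * (2 + 2 ^ 80)) * T ^ 2 := add_le_add h1 h2
    _ = (2 * (2 + 2 ^ 80) + (4 + 8 * (2 + 2 ^ 80))) * T ^ 2 := by ring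
    _ ≤ 2 ^ 90 * T ^ 2 := mul_le_mul_of_nonneg_right (by norm_num) h5

section
variable {P L Z : Type} [Fintype P] [Fintype L] [AddCommGroup Z] [Fintype Z] {q : ℝ}
  (X : Design P L Z q) (t : ℕ)

/-- Few lines: `card B ≤ T^2`; uses (1). -/
theorem caseS (A : Finset P) (B : Finset L) (hB : (B.card : ℝ) ≤ 4 ^ t) :
    (nin X.inc A B : ℝ) * pr (fun z : Fin t → Z => (∀ p ∈ A, ¬ Kp X z p) ∧
      (∀ l ∈ B, ¬ Lp X z l) ∧ Gp X z) ≤ 2 * 4 ^ t := by
  have h4 : (0 : ℝ) < 4 ^ t := by positivity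
  rcases A.eq_empty_or_nonempty with hA | hA
  · subst hA
    have : nin X.inc (∅ : Finset P) B = 0 := by
      unfold nin
      simp
    rw [this]
    simp
  · set p := pr (fun z : Fin t → Z => (∀ p ∈ A, ¬ Kp X z p) ∧
      (∀ l ∈ B, ¬ Lp X z l) ∧ Gp X z) with hp
    have hp0 : 0 ≤ p := pr_nonneg _
    have hp1 : p ≤ 1 := pr_le_one _
    have hp2 : p ≤ 2 ^ t / A.card := (pr_mono (fun z hz => hz.1)).trans (bdA X t A hA)
    have hApos : (0 : ℝ) < A.card := by exact_mod_cast hA.card_pos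
    have hs0 : 0 ≤ Real.sqrt B.card := Real.sqrt_nonneg _
    have hs : Real.sqrt B.card ≤ 2 ^ t := by
      rw [Real.sqrt_le_left (by positivity)]
      calc (B.card : ℝ) ≤ 4 ^ t := hB
        _ = (2 ^ t) ^ 2 := by rw [← pow_mul, mul_comm, pow_mul]; norm_num
    have h22 : (2 : ℝ) ^ t * 2 ^ t = 4 ^ t := by rw [← mul_pow]; norm_num
    have hpA : p * A.card ≤ 2 ^ t := by
      rwa [le_div_iff₀ hApos] at hp2
    have hBp : (B.card : ℝ) * p ≤ 4 ^ t := by
      calc (B.card : ℝ) * p ≤ B.card * 1 := by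
            exact mul_le_mul_of_nonneg_left hp1 (Nat.cast_nonneg _)
        _ ≤ 4 ^ t := by rw [mul_one]; exact hB
    have hAp : (A.card : ℝ) * Real.sqrt B.card * p ≤ 4 ^ t := by
      calc (A.card : ℝ) * Real.sqrt B.card * p = (p * A.card) * Real.sqrt B.card := by ring
        _ ≤ 2 ^ t * 2 ^ t := mul_le_mul hpA hs hs0 (by positivity)
        _ = 4 ^ t := h22
    calc (nin X.inc A B : ℝ) * p ≤ (B.card + A.card * Real.sqrt B.card) * p :=
          mul_le_mul_of_nonneg_right (X.nin_le A B) hp0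
      _ = B.card * p + A.card * Real.sqrt B.card * p := by ring
      _ ≤ 2 * 4 ^ t := by linarith

/-- Middle: `T^2 < card B ≤ 2^80 T^3`; (2) for the term `card B`, (4) with `t2` such that
`2^t2 ≤ T^2 / sqrt (card B) < 2^(t2+1)` for the term `card A * sqrt (card B)`. -/
theorem caseM (ht : 82 ≤ t) (hq : q = 8 ^ t) (A : Finset P) (B : Finset L)
    (hB : (4 : ℝ) ^ t < B.card) (hB2 : (B.card : ℝ) ≤ 2 ^ 80 * 8 ^ t) :
    (nin X.inc A B : ℝ) * pr (fun z : Fin t → Z => (∀ p ∈ A, ¬ Kp X z p) ∧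
      (∀ l ∈ B, ¬ Lp X z l) ∧ Gp X z) ≤ 2 ^ 90 * 4 ^ t := by
  rcases A.eq_empty_or_nonempty with rfl | hA
  · have : nin X.inc (∅ : Finset P) B = 0 := by simp [nin]
    rw [this]
    simp
  have hq0 : 0 < q := by rw [hq]; positivity
  have hv0 : (0 : ℝ) < B.card := lt_trans (by positivity) hB
  have hBne : B.Nonempty := by
    rw [← Finset.card_pos]
    exact_mod_cast hv0
  set T : ℝ := 2 ^ t with hT
  have h4 : (4 : ℝ) ^ t = T ^ 2 := by rw [hT, ← pow_mul, mul_comm, pow_mul]; norm_num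
  have h8 : (8 : ℝ) ^ t = T ^ 3 := by rw [hT, ← pow_mul, mul_comm, pow_mul]; norm_num
  have hT82 : (2 : ℝ) ^ 82 ≤ T := pow_le_pow_right₀ (by norm_num) ht
  have hT0 : 0 < T := by positivity
  set v : ℝ := (B.card : ℝ) with hv
  set r : ℝ := Real.sqrt v with hr
  have hr0 : 0 < r := Real.sqrt_pos.mpr hv0
  have hrv : r * r = v := Real.mul_self_sqrt hv0.le
  rw [h4] at hB
  rw [h8] at hB2
  have hrT : T < r := by
    by_contra h
    push Not at h
    have : r * r ≤ T * T := mul_le_mul h h hr0.le hT0.le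
    rw [hrv] at this
    nlinarith
  have hr2 : 2 * r ≤ T ^ 2 := by
    by_contra h
    push Not at h
    have h1 : (T ^ 2) * (T ^ 2) < (2 * r) * (2 * r) := by
      apply mul_lt_mul'' h h (by positivity) (by positivity)
    have h2 : (2 * r) * (2 * r) = 4 * v := by rw [← hrv]; ring
    rw [h2] at h1
    have h3 : 4 * v ≤ 2 ^ 82 * T ^ 3 := by nlinarith
    have h5 : (2 : ℝ) ^ 82 * T ^ 3 ≤ T * T ^ 3 := mul_le_mul_of_nonneg_right hT82 (by positivity)
    nlinarith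
  obtain ⟨t2, ht2, ht2'⟩ := exists_nat_pow_near (x := T ^ 2 / r) (y := (2 : ℝ))
    (by rw [le_div_iff₀ hr0]; linarith) (by norm_num)
  have h2y : 2 ≤ T ^ 2 / r := by rw [le_div_iff₀ hr0]; exact hr2
  have ht21 : 1 ≤ t2 := by
    by_contra h
    have : t2 = 0 := by omega
    subst this
    norm_num at ht2'
    linarith
  have ht2t : t2 < t := by
    have h1 : (2 : ℝ) ^ t2 < 2 ^ t := by
      refine lt_of_le_of_lt ht2 ?_
      rw [div_lt_iff₀ hr0, ← hT]
      nlinarith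
    exact (pow_lt_pow_iff_right₀ (by norm_num)).mp h1
  obtain ⟨t3, rfl⟩ := Nat.exists_eq_add_of_lt ht2t
  set p0 := pr (fun z : Fin (t2 + t3 + 1) → Z => (∀ p ∈ A, ¬ Kp X z p) ∧
      (∀ l ∈ B, ¬ Lp X z l) ∧ Gp X z) with hp0
  have hp0n : 0 ≤ p0 := pr_nonneg _
  have hnin := X.nin_le A B
  have hqT : q = T ^ 3 := by rw [hq, h8]
  have hb1 : p0 ≤ (2 * T ^ 3 / v + 1) / (T - 1) := by
    have := bdB X (t2 + t3 + 1) hq0 (by omega) B hBne
    rw [← hT, ← hv] at this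
    rw [← hqT]
    exact (pr_mono (fun z hz => hz.2.1)).trans this
  have hb2 : p0 ≤ 4 * 2 ^ t2 / A.card + 2 * T / A.card * ((2 * T ^ 3 / v + 1) / (2 ^ t2 - 1)) := by
    have := joint X t2 (t3 + 1) hq0 ht21 A hA B hBne
    rw [← hv] at this
    rw [← hqT]
    exact le_trans (pr_mono (fun z hz => ⟨hz.1, hz.2.1⟩)) this
  have hu : (1 : ℝ) ≤ A.card := by exact_mod_cast Finset.card_pos.mpr hA
  have key := eb_num T v r A.card (2 ^ t2) p0 hT82 hr0 hrv hB2 hu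
    (by
      calc (2 : ℝ) = 2 ^ 1 := by norm_num
        _ ≤ 2 ^ t2 := pow_le_pow_right₀ (by norm_num) ht21)
    (by rwa [le_div_iff₀ hr0] at ht2)
    (by
      rw [div_lt_iff₀ hr0, pow_succ (2 : ℝ) t2] at ht2'
      linarith) hb1 hb2
  rw [h4]
  refine le_trans ?_ key
  exact mul_le_mul_of_nonneg_right hnin hp0n

/-- Many lines: `2^80 T^3 < card B`; (3) and `nin ≤ T^9`. -/
theorem caseL (ht : 82 ≤ t) (hq : q = 8 ^ t) (A : Finset P) (B : Finset L)
    (hB : 2 ^ 80 * 8 ^ t < (B.card : ℝ)) :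
    (nin X.inc A B : ℝ) * pr (fun z : Fin t → Z => (∀ p ∈ A, ¬ Kp X z p) ∧
      (∀ l ∈ B, ¬ Lp X z l) ∧ Gp X z) ≤ 1 := by
  have hq0 : 0 < q := by rw [hq]; positivity
  have hv0 : (0 : ℝ) < B.card := lt_trans (by positivity) hB
  have hBne : B.Nonempty := by
    rw [← Finset.card_pos]
    exact_mod_cast hv0
  have hqB : 2 ^ 80 * q ≤ (B.card : ℝ) := by rw [hq]; exact hB.le
  have hratio : q / B.card ≤ 1 / 2 ^ 80 := by
    rw [div_le_div_iff₀ hv0 (by positivity)]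
    linarith
  have h1 := bdG X t hq0 B hBne (by linarith)
  have h2 : (q / (B.card : ℝ)) ^ ((t + 7) / 8) ≤ (1 / 2) ^ (10 * t) := by
    calc (q / (B.card : ℝ)) ^ ((t + 7) / 8) ≤ (1 / 2 ^ 80) ^ ((t + 7) / 8) :=
          pow_le_pow_left₀ (by positivity) hratio _
      _ = (1 / 2 : ℝ) ^ (80 * ((t + 7) / 8)) := by
          rw [pow_mul]; norm_num
      _ ≤ (1 / 2) ^ (10 * t) := by
          apply pow_le_pow_of_le_one (by norm_num) (by norm_num)
          omega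
  have h3 : (nin X.inc A B : ℝ) ≤ 8 ^ (3 * t) := by
    have h4 : nin X.inc A B ≤ nin X.inc univ univ := by
      unfold nin
      apply card_le_card
      intro x hx
      simp only [mem_filter, mem_product, mem_univ, true_and, and_true] at hx ⊢
      exact hx.2
    calc (nin X.inc A B : ℝ) ≤ (nin X.inc univ univ : ℝ) := by exact_mod_cast h4
      _ = q ^ 3 := X.nin_all
      _ = 8 ^ (3 * t) := by rw [hq, ← pow_mul, mul_comm t 3]
  have h5 : pr (fun z : Fin t → Z => (∀ p ∈ A, ¬ Kp X z p) ∧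
      (∀ l ∈ B, ¬ Lp X z l) ∧ Gp X z) ≤ 2 ^ t * (1 / 2) ^ (10 * t) := by
    refine (pr_mono (fun z hz => hz.2)).trans (h1.trans ?_)
    exact mul_le_mul_of_nonneg_left h2 (by positivity)
  calc (nin X.inc A B : ℝ) * pr (fun z : Fin t → Z => (∀ p ∈ A, ¬ Kp X z p) ∧
      (∀ l ∈ B, ¬ Lp X z l) ∧ Gp X z) ≤ 8 ^ (3 * t) * (2 ^ t * (1 / 2) ^ (10 * t)) :=
        mul_le_mul h3 h5 (pr_nonneg _) (by positivity)
    _ = 1 := by
        have e1 : (8 : ℝ) ^ (3 * t) = 2 ^ (9 * t) := by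
          rw [show (8 : ℝ) = 2 ^ 3 by norm_num, ← pow_mul]; congr 1; ring
        rw [e1, ← mul_assoc, ← pow_add, show 9 * t + t = 10 * t by ring, ← mul_pow]
        norm_num

theorem rect_bound (ht : 82 ≤ t) (hq : q = 8 ^ t) (A : Finset P) (B : Finset L) :
    (nin X.inc A B : ℝ) * pr (fun z : Fin t → Z => (∀ p ∈ A, ¬ Kp X z p) ∧
      (∀ l ∈ B, ¬ Lp X z l) ∧ Gp X z) ≤ 2 ^ 90 * 4 ^ t := by
  have h4 : (1 : ℝ) ≤ 4 ^ t := one_le_pow₀ (by norm_num)
  rcases le_or_gt (B.card : ℝ) (4 ^ t) with h | h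
  · refine (caseS X t A B h).trans ?_
    nlinarith
  · rcases le_or_gt (B.card : ℝ) (2 ^ 80 * 8 ^ t) with h' | h'
    · exact caseM X t ht hq A B h h'
    · refine (caseL X t ht hq A B h').trans ?_
      nlinarith

/-- A covering by rectangles `A i × B i` has at least `T^7 / 2^91` members. -/
theorem cover_bound (ht : 82 ≤ t) (hq : q = 8 ^ t) (f : ℕ) (A : Fin f → Finset P)
    (B : Fin f → Finset L)
    (hcov : ∀ (z : Fin t → Z) (p : P) (l : L), X.inc p l → ¬ Kp X z p → ¬ Lp X z l →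
      ∃ i, p ∈ A i ∧ l ∈ B i ∧ (∀ p' ∈ A i, ¬ Kp X z p') ∧ ∀ l' ∈ B i, ¬ Lp X z l') :
    (2 : ℝ) ^ (7 * t) ≤ 2 ^ 91 * f := by
  have hlow := low X t (by omega) hq
  have h1 : ∀ x ∈ (univ : Finset (P × L)).filter (fun x => X.inc x.1 x.2),
      pr (fun z : Fin t → Z => ¬ Kp X z x.1 ∧ ¬ Lp X z x.2 ∧ Gp X z) ≤
      ∑ i : Fin f, if x ∈ A i ×ˢ B i then pr (fun z : Fin t → Z => (∀ p ∈ A i, ¬ Kp X z p) ∧
        (∀ l ∈ B i, ¬ Lp X z l) ∧ Gp X z) else 0 := by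
    intro x hx
    rw [mem_filter] at hx
    rw [← sum_filter]
    refine le_trans (pr_mono ?_) (pr_exists_le _ _)
    intro z hz
    obtain ⟨i, h2, h3, h4, h5⟩ := hcov z x.1 x.2 hx.2 hz.1 hz.2.1
    exact ⟨i, mem_filter.mpr ⟨mem_univ _, mem_product.mpr ⟨h2, h3⟩⟩, h4, h5, hz.2.2⟩
  have h2 := hlow.trans (sum_le_sum h1)
  rw [sum_comm] at h2
  have h3 : ∀ i : Fin f, (∑ x ∈ (univ : Finset (P × L)).filter (fun x => X.inc x.1 x.2),
      if x ∈ A i ×ˢ B i then pr (fun z : Fin t → Z => (∀ p ∈ A i, ¬ Kp X z p) ∧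
        (∀ l ∈ B i, ¬ Lp X z l) ∧ Gp X z) else 0) ≤ 2 ^ 90 * 4 ^ t := by
    intro i
    rw [← sum_filter, sum_const, nsmul_eq_mul]
    refine le_trans (le_of_eq ?_) (rect_bound X t ht hq (A i) (B i))
    congr 2
    unfold nin
    congr 1
    ext x
    simp only [mem_filter, mem_univ, true_and]
    tauto
  have h4 := h2.trans (sum_le_sum (fun i _ => h3 i))
  rw [sum_const, card_univ, Fintype.card_fin, nsmul_eq_mul] at h4
  have e1 : (8 : ℝ) ^ (3 * t) = 2 ^ (7 * t) * 4 ^ t := by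
    rw [show (8 : ℝ) = 2 ^ 3 by norm_num, show (4 : ℝ) = 2 ^ 2 by norm_num, ← pow_mul, ← pow_mul,
      ← pow_add]
    congr 1; ring
  rw [e1] at h4
  have h5 : (0 : ℝ) < 4 ^ t := by positivity
  have h6 : (2 : ℝ) ^ (7 * t) * 4 ^ t ≤ (2 ^ 91 * f) * 4 ^ t := by
    have : (2 : ℝ) ^ 91 = 2 * 2 ^ 90 := by norm_num
    rw [this]
    linarith
  exact le_of_mul_le_mul_right h6 h5

end

end Pool.Agent.XCBip
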