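import Pool.Agent.XCBip.Cheb
import Pool.Agent.XCBip.Des

/-!
# Single estimates
-/

set_option autoImplicit false

namespace Pool.Agent.XCBip

open Finset
open scoped Classical

section
variable {P L Z : Type} [Fintype P] [Fintype L] [AddCommGroup Z] [Fintype Z] {q : ℝ}
  (X : Design P L Z q) (t : ℕ)

theorem pr_K (p : P) : pr (fun z : Fin t → Z => Kp X z p) = (1 / 2) ^ t := by
  have : Nonempty Z := ⟨0⟩
  have h := pr_pi (Z := Z) (t := t) univ (fun z => X.chi z p = 0)
  rw [X.pr_chi, Finset.card_univ, Fintype.card_fin] at h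
  rw [← h]
  congr 1
  funext z
  simp [Kp]


theorem pr_K2 (p p' : P) (h : p ≠ p') :
    pr (fun z : Fin t → Z => Kp X z p ∧ Kp X z p') = ((1 / 2) ^ t) ^ 2 := by
  have : Nonempty Z := ⟨0⟩
  have h2 := pr_pi (Z := Z) (t := t) univ (fun z => X.chi z p = 0 ∧ X.chi z p' = 0)
  rw [X.pr_chi2 p p' h, Finset.card_univ, Fintype.card_fin] at h2
  have e : ((1 / 2 : ℝ) ^ t) ^ 2 = (1 / 4) ^ t := by
    rw [← pow_mul, mul_comm, pow_mul]
    norm_num
  rw [e, ← h2]
  congr 1
  funext z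
  simp only [Kp, Finset.mem_univ, true_implies, forall_and]


/-- (1) -/
theorem bdA (A : Finset P) (hA : A.Nonempty) :
    pr (fun z : Fin t → Z => ∀ p ∈ A, ¬ Kp X z p) ≤ 2 ^ t / A.card := by
  have h := cheb0_pw A (fun p (z : Fin t → Z) => Kp X z p) ((1 / 2) ^ t) (by positivity) hA
    (fun p _ => pr_K X t p) (fun p _ p' _ hne => (pr_K2 X t p p' hne).le)
  refine h.trans (le_of_eq ?_)
  rw [one_div_pow]
  have : (A.card : ℝ) ≠ 0 := by exact_mod_cast hA.card_pos.ne'
  field_simp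


/-- Half of the expected number of points of `A` in `K`. -/
theorem halfA (A : Finset P) (hA : A.Nonempty) :
    pr (fun z : Fin t → Z => 2 * 2 ^ t * ((A.filter (fun p => Kp X z p)).card : ℝ) < A.card) ≤
      4 * 2 ^ t / A.card := by
  have h := chebhalf_pw A (fun p (z : Fin t → Z) => Kp X z p) ((1 / 2) ^ t) (by positivity) hA
    (fun p _ => pr_K X t p) (fun p _ p' _ hne => (pr_K2 X t p p' hne).le)
  have hA0 : (A.card : ℝ) ≠ 0 := by exact_mod_cast hA.card_pos.ne'
  have e1 : (4 : ℝ) / (A.card * (1 / 2) ^ t) = 4 * 2 ^ t / A.card := by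
    rw [one_div_pow]
    field_simp
  rw [e1] at h
  refine le_trans (le_of_eq ?_) h
  congr 1
  funext z
  apply propext
  have h2 : (0 : ℝ) < 2 ^ t := by positivity
  rw [one_div_pow, mul_one_div, lt_div_iff₀ h2]
  constructor
  · intro h3
    linarith
  · intro h3
    linarith

private theorem db_card : ((univ.filter (fun w : Finset (Fin t) => w.Nonempty)).card : ℝ) =
    2 ^ t - 1 := by
  have h1 : (univ.filter (fun w : Finset (Fin t) => w.Nonempty)) =
      (univ : Finset (Finset (Fin t))).erase ∅ := by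
    ext w
    simp [Finset.nonempty_iff_ne_empty]
  rw [h1, Finset.card_erase_of_mem (Finset.mem_univ _), Finset.card_univ, Fintype.card_finset,
    Fintype.card_fin]
  rw [Nat.cast_sub (Nat.one_le_two_pow)]
  push_cast
  ring

/-- (2): `cheb0` for the pairs (nonempty `w`, `l ∈ B`) and the events `D (∑_w z) l`. -/
theorem bdB (hq : 0 < q) (ht : 1 ≤ t) (B : Finset L) (hB : B.Nonempty) :
    pr (fun z : Fin t → Z => ∀ l ∈ B, ¬ Lp X z l) ≤ (2 * q / B.card + 1) / (2 ^ t - 1) := by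
  set W : Finset (Finset (Fin t)) := univ.filter (fun w : Finset (Fin t) => w.Nonempty) with hW
  have hWc : (W.card : ℝ) = 2 ^ t - 1 := db_card t
  have ht2 : (2 : ℝ) ≤ 2 ^ t := by
    calc (2 : ℝ) = 2 ^ 1 := by norm_num
      _ ≤ 2 ^ t := pow_le_pow_right₀ (by norm_num) ht
  have hWpos : (0 : ℝ) < 2 ^ t - 1 := by linarith
  have hBpos : (0 : ℝ) < B.card := by exact_mod_cast hB.card_pos
  let E : Finset (Fin t) × L → (Fin t → Z) → Prop := fun x z => X.D (∑ i ∈ x.1, z i) x.2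
  have hE : ∀ x ∈ W ×ˢ B, pr (E x) = 1 / (2 * q) := by
    rintro ⟨w, l⟩ hx
    have hw : w.Nonempty := (Finset.mem_filter.1 (Finset.mem_product.1 hx).1).2
    exact (pr_sum w hw (fun z => X.D z l)).trans (X.pr_D l)
  have hsum : ∑ x ∈ W ×ˢ B, pr (E x) = (2 ^ t - 1) * B.card / (2 * q) := by
    rw [Finset.sum_congr rfl hE, Finset.sum_const, Finset.card_product, nsmul_eq_mul]
    push_cast
    rw [hWc]
    ring
  have hcov : ∀ x ∈ W ×ˢ B, ∑ y ∈ W ×ˢ B,
      (pr (fun ω => E x ω ∧ E y ω) - pr (E x) * pr (E y)) ≤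
      1 / (2 * q) + B.card * (1 / (4 * q ^ 2)) := by
    rintro ⟨w, l⟩ hx
    have hwW : w ∈ W := (Finset.mem_product.1 hx).1
    have hlB : l ∈ B := (Finset.mem_product.1 hx).2
    have hw : w.Nonempty := (Finset.mem_filter.1 hwW).2
    rw [Finset.sum_product, Finset.sum_eq_single w]
    · have h1 : ∀ l' ∈ B, (pr (fun ω => E (w, l) ω ∧ E (w, l') ω) - pr (E (w, l)) * pr (E (w, l'))) ≤
          (if l' = l then 1 / (2 * q) else 0) + 1 / (4 * q ^ 2) := by
        intro l' hl'
        rw [hE (w, l) hx, hE (w, l') (Finset.mem_product.2 ⟨hwW, hl'⟩)]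
        have h2 : pr (fun ω => E (w, l) ω ∧ E (w, l') ω) = pr (fun z => X.D z l ∧ X.D z l') :=
          pr_sum w hw (fun z => X.D z l ∧ X.D z l')
        rw [h2]
        have h3 : 1 / (2 * q) * (1 / (2 * q)) = 1 / (4 * q ^ 2) := by
          field_simp
          ring
        have h4 : (0 : ℝ) < 1 / (4 * q ^ 2) := by positivity
        rw [h3]
        by_cases hll : l' = l
        · subst hll
          rw [if_pos rfl]
          have h5 : pr (fun z => X.D z l' ∧ X.D z l') ≤ 1 / (2 * q) := by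
            rw [← X.pr_D l']
            exact pr_mono (fun z hz => hz.1)
          linarith
        · rw [if_neg hll]
          have h5 := X.pr_D2 l l' (fun h => hll h.symm)
          have h6 : 1 / (2 * q ^ 2) = 1 / (4 * q ^ 2) + 1 / (4 * q ^ 2) := by
            field_simp
            norm_num
          linarith
      refine (Finset.sum_le_sum h1).trans ?_
      rw [Finset.sum_add_distrib, Finset.sum_ite_eq', if_pos hlB, Finset.sum_const, nsmul_eq_mul]
    · intro w' hw' hne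
      apply Finset.sum_eq_zero
      intro l' hl'
      have hw2 : w'.Nonempty := (Finset.mem_filter.1 hw').2
      have h2 : pr (fun ω => E (w, l) ω ∧ E (w', l') ω) =
          pr (fun z => X.D z l) * pr (fun z => X.D z l') :=
        pr_sum2 w w' hw hw2 (fun h => hne h.symm) (fun z => X.D z l) (fun z => X.D z l')
      rw [h2, hE (w, l) hx, hE (w', l') (Finset.mem_product.2 ⟨hw', hl'⟩), X.pr_D, X.pr_D]
      ring
    · intro h
      exact absurd hwW h
  have hmain := cheb0 (W ×ˢ B) E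
  rw [hsum] at hmain
  have hcov2 : ∑ x ∈ W ×ˢ B, ∑ y ∈ W ×ˢ B,
      (pr (fun ω => E x ω ∧ E y ω) - pr (E x) * pr (E y)) ≤
      ((2 ^ t - 1) * B.card) * (1 / (2 * q) + B.card * (1 / (4 * q ^ 2))) := by
    refine (Finset.sum_le_sum hcov).trans ?_
    rw [Finset.sum_const, Finset.card_product, nsmul_eq_mul]
    push_cast
    rw [hWc]
  have hev : pr (fun z : Fin t → Z => ∀ l ∈ B, ¬ Lp X z l) ≤
      pr (fun ω => ∀ x ∈ W ×ˢ B, ¬ E x ω) := by
    apply pr_mono
    rintro z hz ⟨w, l⟩ hx hEx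
    exact hz l (Finset.mem_product.1 hx).2
      ⟨w, (Finset.mem_filter.1 (Finset.mem_product.1 hx).1).2, hEx⟩
  refine hev.trans ?_
  have h7 := hmain.trans hcov2
  have h8 : (0 : ℝ) < ((2 ^ t - 1) * B.card / (2 * q)) ^ 2 := by positivity
  have h9 : pr (fun ω => ∀ x ∈ W ×ˢ B, ¬ E x ω) ≤
      (((2 ^ t - 1) * B.card) * (1 / (2 * q) + B.card * (1 / (4 * q ^ 2)))) /
        ((2 ^ t - 1) * B.card / (2 * q)) ^ 2 := by
    rw [le_div_iff₀ h8]
    linarith
  refine h9.trans (le_of_eq ?_)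
  field_simp
  ring

theorem rho (hq : 0 < q) (B : Finset L) (hB : B.Nonempty) :
    pr (fun z : Z => ∀ l ∈ B, ¬ X.D0 z l) ≤ q / B.card := by
  have h := cheb0_pw (Ω := Z) B (fun l z => X.D0 z l) (1 / q) (by positivity) hB
    (fun l _ => X.pr_D0 l)
    (fun l _ l' _ hne => by
      refine (X.pr_D02 l l' hne).trans (le_of_eq ?_)
      rw [div_pow, one_pow])
  refine h.trans (le_of_eq ?_)
  have hc : (0 : ℝ) < B.card := by exact_mod_cast hB.card_pos
  field_simp


/-- (3): union over the sets `T` of good indices. -/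
theorem bdG (hq : 0 < q) (B : Finset L) (hB : B.Nonempty) (hB2 : q ≤ B.card) :
    pr (fun z : Fin t → Z => (∀ l ∈ B, ¬ Lp X z l) ∧ Gp X z) ≤
      2 ^ t * (q / B.card) ^ ((t + 7) / 8) := by
  have hc : (0 : ℝ) < B.card := by exact_mod_cast hB.card_pos
  have h0 : 0 ≤ q / B.card := by positivity
  have h1 : q / B.card ≤ 1 := by rw [div_le_one hc]; exact hB2
  haveI : Nonempty Z := ⟨0⟩
  set S : Finset (Finset (Fin t)) := univ.filter (fun T => t ≤ 8 * T.card) with hS
  have hsub : pr (fun z : Fin t → Z => (∀ l ∈ B, ¬ Lp X z l) ∧ Gp X z) ≤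
      pr (fun z : Fin t → Z => ∃ T ∈ S, ∀ i ∈ T, ∀ l ∈ B, ¬ X.D0 (z i) l) := by
    refine pr_mono ?_
    rintro z ⟨hL, hG⟩
    refine ⟨univ.filter (fun i => X.good (z i)), ?_, ?_⟩
    · rw [hS, mem_filter]
      exact ⟨mem_univ _, hG⟩
    · intro i hi l hl hD
      have hg : X.good (z i) := (mem_filter.mp hi).2
      refine hL l hl ⟨{i}, singleton_nonempty i, ?_⟩
      rw [sum_singleton]
      exact X.good_D _ _ hg hD
  refine hsub.trans ((pr_exists_le S _).trans ?_)
  have hterm : ∀ T ∈ S, pr (fun z : Fin t → Z => ∀ i ∈ T, ∀ l ∈ B, ¬ X.D0 (z i) l) ≤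
      (q / B.card) ^ ((t + 7) / 8) := by
    intro T hT
    rw [hS, mem_filter] at hT
    rw [pr_pi T (fun z : Z => ∀ l ∈ B, ¬ X.D0 z l)]
    have hr := rho X hq B hB
    calc pr (fun z : Z => ∀ l ∈ B, ¬ X.D0 z l) ^ T.card
        ≤ (q / B.card) ^ T.card := pow_le_pow_left₀ (pr_nonneg _) hr _
      _ ≤ (q / B.card) ^ ((t + 7) / 8) := pow_le_pow_of_le_one h0 h1 (by omega)
  refine (sum_le_sum hterm).trans ?_
  rw [sum_const, nsmul_eq_mul]
  refine mul_le_mul_of_nonneg_right ?_ (by positivity)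
  have : S.card ≤ 2 ^ t := by
    refine (card_filter_le _ _).trans ?_
    rw [Finset.card_univ, Fintype.card_finset, Fintype.card_fin]
  exact_mod_cast this


theorem pr_G (ht : 64 ≤ t) : 3 / 4 ≤ pr (fun z : Fin t → Z => Gp X z) := by
  haveI : Nonempty Z := ⟨0⟩
  haveI : NeZero t := ⟨by omega⟩
  have hg := X.pr_good
  set p : ℝ := pr X.good with hp
  have hp0 : 0 < p := by linarith
  have h := chebhalf_pw (Ω := Fin t → Z) (univ : Finset (Fin t)) (fun i z => X.good (z i)) p hp0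
    ⟨0, mem_univ _⟩
    (fun i _ => by
      have := pr_pi (Z := Z) ({i} : Finset (Fin t)) X.good
      simpa using this)
    (fun i _ j _ hij => by
      have := pr_pi (Z := Z) ({i, j} : Finset (Fin t)) X.good
      rw [card_pair hij] at this
      refine le_of_eq ?_
      rw [← this]
      congr 1
      funext z
      simp)
  have hn := pr_not (Ω := Fin t → Z) (fun z => Gp X z)
  have hle : pr (fun z : Fin t → Z => ¬ Gp X z) ≤ 1 / 4 := by
    have htR : (64 : ℝ) ≤ t := by exact_mod_cast ht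
    refine (pr_mono (F := fun z : Fin t → Z =>
      2 * (((univ : Finset (Fin t)).filter (fun i => X.good (z i))).card : ℝ) <
        (univ : Finset (Fin t)).card * p) ?_).trans (h.trans ?_)
    · intro z hz
      unfold Gp at hz
      rw [not_le] at hz
      have hz' : (8 : ℝ) * (((univ : Finset (Fin t)).filter (fun i => X.good (z i))).card : ℝ) < t := by
        exact_mod_cast hz
      rw [Finset.card_univ, Fintype.card_fin]
      have : (t : ℝ) / 4 ≤ t * p := by
        have := mul_le_mul_of_nonneg_left hg (by positivity : (0 : ℝ) ≤ t)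
        linarith
      show 2 * (((univ : Finset (Fin t)).filter (fun i => X.good (z i))).card : ℝ) < (t : ℝ) * p
      linarith
    · rw [Finset.card_univ, Fintype.card_fin]
      rw [div_le_div_iff₀ (by positivity) (by norm_num)]
      nlinarith
  linarith


theorem pr_L (hq : 0 < q) (l : L) : pr (fun z : Fin t → Z => Lp X z l) ≤ 2 ^ t / (2 * q) := by
  set S : Finset (Finset (Fin t)) := univ.filter (fun w => w.Nonempty) with hS
  have h1 : pr (fun z : Fin t → Z => Lp X z l) ≤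
      pr (fun z : Fin t → Z => ∃ w ∈ S, X.D (∑ i ∈ w, z i) l) := by
    refine pr_mono ?_
    rintro z ⟨w, hw, hD⟩
    exact ⟨w, by rw [hS, mem_filter]; exact ⟨mem_univ _, hw⟩, hD⟩
  refine h1.trans ((pr_exists_le S _).trans ?_)
  have hterm : ∀ w ∈ S, pr (fun z : Fin t → Z => X.D (∑ i ∈ w, z i) l) ≤ 1 / (2 * q) := by
    intro w hw
    rw [hS, mem_filter] at hw
    rw [pr_sum w hw.2 (fun z : Z => X.D z l), X.pr_D l]
  refine (sum_le_sum hterm).trans ?_
  rw [sum_const, nsmul_eq_mul]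
  have : (S.card : ℝ) ≤ 2 ^ t := by
    have : S.card ≤ 2 ^ t := by
      refine (card_filter_le _ _).trans ?_
      rw [Finset.card_univ, Fintype.card_finset, Fintype.card_fin]
    exact_mod_cast this
  calc (S.card : ℝ) * (1 / (2 * q)) ≤ 2 ^ t * (1 / (2 * q)) :=
        mul_le_mul_of_nonneg_right this (by positivity)
    _ = 2 ^ t / (2 * q) := by ring

private lemma de_one (ht : 64 ≤ t) (hq : q = 8 ^ t) (p : P) (l : L) :
    (1 / 2 : ℝ) ≤ pr (fun z : Fin t → Z => ¬ Kp X z p ∧ ¬ Lp X z l ∧ Gp X z) := by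
  have hq0 : 0 < q := by rw [hq]; positivity
  have h1 := pr_G X t ht
  have h2 := pr_K X t p
  have h3 := pr_L X t hq0 l
  have h4 : pr (fun z : Fin t → Z => Gp X z) ≤
      pr (fun z : Fin t → Z => (¬ Kp X z p ∧ ¬ Lp X z l ∧ Gp X z) ∨ (Kp X z p ∨ Lp X z l)) := by
    refine pr_mono (fun z hz => ?_)
    by_cases hk : Kp X z p
    · exact Or.inr (Or.inl hk)
    · by_cases hl : Lp X z l
      · exact Or.inr (Or.inr hl)
      · exact Or.inl ⟨hk, hl, hz⟩
  have h5 := pr_or (fun z : Fin t → Z => ¬ Kp X z p ∧ ¬ Lp X z l ∧ Gp X z)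
    (fun z : Fin t → Z => Kp X z p ∨ Lp X z l)
  have h6 := pr_or (fun z : Fin t → Z => Kp X z p) (fun z : Fin t → Z => Lp X z l)
  have h7 : ((1 : ℝ) / 2) ^ t ≤ 1 / 8 := by
    calc ((1 : ℝ) / 2) ^ t ≤ (1 / 2) ^ 3 :=
          pow_le_pow_of_le_one (by norm_num) (by norm_num) (by omega)
      _ = 1 / 8 := by norm_num
  have h8 : (2 : ℝ) ^ t / (2 * q) ≤ 1 / 8 := by
    have h9 : (8 : ℝ) ^ t = 2 ^ t * 4 ^ t := by
      rw [← mul_pow]; norm_num
    have h10 : (4 : ℝ) ≤ 4 ^ t := by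
      calc (4 : ℝ) = 4 ^ 1 := by norm_num
        _ ≤ 4 ^ t := pow_le_pow_right₀ (by norm_num) (by omega)
    have h11 : (0 : ℝ) < 2 ^ t := by positivity
    rw [hq, h9, div_le_iff₀ (by positivity)]
    nlinarith [mul_le_mul_of_nonneg_left h10 h11.le]
  linarith

/-- The expected number of missed edges is at least half of all. -/
theorem low (ht : 64 ≤ t) (hq : q = 8 ^ t) :
    (8 : ℝ) ^ (3 * t) / 2 ≤ ∑ x ∈ (univ : Finset (P × L)).filter (fun x => X.inc x.1 x.2),
      pr (fun z : Fin t → Z => ¬ Kp X z x.1 ∧ ¬ Lp X z x.2 ∧ Gp X z) := by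
  have h1 : (((univ : Finset (P × L)).filter (fun x => X.inc x.1 x.2)).card : ℝ) =
      8 ^ (3 * t) := by
    have h2 := X.nin_all
    unfold nin at h2
    rw [univ_product_univ] at h2
    have h3 : q ^ 3 = 8 ^ (3 * t) := by
      rw [hq, ← pow_mul, mul_comm t 3]
    exact h2.trans h3
  calc (8 : ℝ) ^ (3 * t) / 2
      = ∑ _x ∈ (univ : Finset (P × L)).filter (fun x => X.inc x.1 x.2), (1 / 2 : ℝ) := by
        rw [Finset.sum_const, nsmul_eq_mul, h1]; ring
    _ ≤ _ := Finset.sum_le_sum (fun x _ => de_one X t ht hq x.1 x.2)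

/-- (4): condition on the first `t2` vectors. -/
theorem joint (t2 t3 : ℕ) (hq : 0 < q) (ht : 1 ≤ t2) (A : Finset P) (hA : A.Nonempty) (B : Finset L)
    (hB : B.Nonempty) :
    pr (fun z : Fin (t2 + t3) → Z => (∀ p ∈ A, ¬ Kp X z p) ∧ ∀ l ∈ B, ¬ Lp X z l) ≤
      4 * 2 ^ t2 / A.card +
        2 * 2 ^ (t2 + t3) / A.card * ((2 * q / B.card + 1) / (2 ^ t2 - 1)) := by
  have hAc : (0 : ℝ) < A.card := by exact_mod_cast hA.card_pos
  have hBc : (0 : ℝ) < B.card := by exact_mod_cast hB.card_pos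
  have hK : ∀ (a : Fin t2 → Z) (b : Fin t3 → Z) (p : P), Kp X a p → Kp X b p →
      Kp X (Fin.append a b) p := by
    intro a b p ha hb i
    refine Fin.addCases (fun i => ?_) (fun i => ?_) i
    · rw [Fin.append_left]; exact ha i
    · rw [Fin.append_right]; exact hb i
  have hL : ∀ (a : Fin t2 → Z) (b : Fin t3 → Z) (l : L), Lp X a l → Lp X (Fin.append a b) l := by
    rintro a b l ⟨w, hw, hD⟩
    refine ⟨w.map (Fin.castAddEmb t3), hw.map, ?_⟩
    rw [sum_map]
    have : ∑ i ∈ w, Fin.append a b (Fin.castAddEmb t3 i) = ∑ i ∈ w, a i := by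
      refine sum_congr rfl fun i _ => ?_
      show Fin.append a b (Fin.castAdd t3 i) = a i
      rw [Fin.append_left]
    rw [this]
    exact hD
  set E : (Fin (t2 + t3) → Z) → Prop :=
    fun z => (∀ p ∈ A, ¬ Kp X z p) ∧ ∀ l ∈ B, ¬ Lp X z l with hE
  set G : (Fin t2 → Z) → Prop :=
    fun a => 2 * 2 ^ t2 * ((A.filter (fun p => Kp X a p)).card : ℝ) < A.card with hG
  set F : (Fin t2 → Z) → Prop := fun a => ∀ l ∈ B, ¬ Lp X a l with hF
  set H : (Fin t2 → Z) × (Fin t3 → Z) → Prop :=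
    fun x => ¬ G x.1 ∧ F x.1 ∧ ∀ p ∈ A.filter (fun p => Kp X x.1 p), ¬ Kp X x.2 p with hH
  have e1 : pr E = pr (fun x : (Fin t2 → Z) × (Fin t3 → Z) => E (Fin.append x.1 x.2)) := by
    rw [← pr_equiv (Fin.appendEquiv t2 t3 (α := Z)) E]
    rfl
  have e2 : pr (fun x : (Fin t2 → Z) × (Fin t3 → Z) => E (Fin.append x.1 x.2)) ≤
      pr (fun x : (Fin t2 → Z) × (Fin t3 → Z) => G x.1 ∨ H x) := by
    refine pr_mono ?_
    rintro ⟨a, b⟩ ⟨h1, h2⟩
    by_cases hg : G a
    · exact Or.inl hg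
    · refine Or.inr ⟨hg, fun l hl hla => h2 l hl (hL a b l hla), ?_⟩
      intro p hp hpb
      rw [mem_filter] at hp
      exact h1 p hp.1 (hK a b p hp.2 hpb)
  have e3 : pr (fun x : (Fin t2 → Z) × (Fin t3 → Z) => G x.1) ≤ 4 * 2 ^ t2 / A.card := by
    refine (pr_cond (fun x : (Fin t2 → Z) × (Fin t3 → Z) => G x.1) G 1 zero_le_one
      (fun x y h => h) (fun x _ => pr_le_one _)).trans ?_
    rw [one_mul]
    exact halfA X t2 A hA
  have hcn : (0 : ℝ) ≤ 2 * 2 ^ (t2 + t3) / A.card := by positivity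
  have e4 : pr H ≤ 2 * 2 ^ (t2 + t3) / A.card * pr F := by
    refine pr_cond H F _ hcn (fun x y h => h.2.1) ?_
    intro a _
    by_cases hg : G a
    · have : pr (fun y => H (a, y)) ≤ pr (fun _ : Fin t3 → Z => False) :=
        pr_mono (fun y h => absurd hg h.1)
      refine this.trans ?_
      have h0 : pr (fun _ : Fin t3 → Z => False) = 0 := by
        unfold pr
        simp
      rw [h0]
      exact hcn
    · have hg' : (A.card : ℝ) ≤ 2 * 2 ^ t2 * ((A.filter (fun p => Kp X a p)).card : ℝ) := not_lt.mp hg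
      have hpos : (0 : ℝ) < ((A.filter (fun p => Kp X a p)).card : ℝ) := by
        by_contra hcon
        have h0 : ((A.filter (fun p => Kp X a p)).card : ℝ) = 0 :=
          le_antisymm (not_lt.mp hcon) (by positivity)
        rw [h0] at hg'
        linarith
      have hne : (A.filter (fun p => Kp X a p)).Nonempty := by
        rw [← card_pos]
        exact_mod_cast hpos
      refine (pr_mono (F := fun y : Fin t3 → Z =>
        ∀ p ∈ A.filter (fun p => Kp X a p), ¬ Kp X y p) (fun y h => h.2.2)).trans ?_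
      refine (bdA X t3 _ hne).trans ?_
      rw [div_le_div_iff₀ hpos hAc, pow_add]
      have h2 : (0 : ℝ) < 2 ^ t3 := by positivity
      nlinarith
  have e5 : pr F ≤ (2 * q / B.card + 1) / (2 ^ t2 - 1) := bdB X t2 hq ht B hB
  calc pr E ≤ pr (fun x : (Fin t2 → Z) × (Fin t3 → Z) => G x.1 ∨ H x) := by rw [e1]; exact e2
    _ ≤ pr (fun x : (Fin t2 → Z) × (Fin t3 → Z) => G x.1) + pr H := pr_or _ _
    _ ≤ 4 * 2 ^ t2 / A.card + 2 * 2 ^ (t2 + t3) / A.card * pr F := add_le_add e3 e4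
    _ ≤ _ := by
      gcongr

end

end Pool.Agent.XCBip
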