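import Mathlib

/-!
# Finite probability

`pr E` is the fraction of the elements of a finite type with the property `E`.
-/

set_option autoImplicit false

namespace Pool.Agent.XCBip

open Finset
open scoped Classical

/-- Fraction of the `ω` with `E ω`. -/
noncomputable def pr {Ω : Type} [Fintype Ω] (E : Ω → Prop) : ℝ :=
  ((univ.filter (fun ω => E ω)).card : ℝ) / (Fintype.card Ω : ℝ)

section
variable {Ω : Type} [Fintype Ω]

private theorem aa_eq (E : Ω → Prop) (s : Finset Ω) (h : ∀ ω, ω ∈ s ↔ E ω) :
    pr E = (s.card : ℝ) / (Fintype.card Ω : ℝ) := by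
  unfold pr
  congr 3
  ext ω
  rw [Finset.mem_filter, h]
  simp

theorem pr_nonneg (E : Ω → Prop) : 0 ≤ pr E := by
  unfold pr
  positivity


theorem pr_le_one (E : Ω → Prop) : pr E ≤ 1 := by
  unfold pr
  apply div_le_one_of_le₀ _ (Nat.cast_nonneg _)
  have := Finset.card_filter_le (univ : Finset Ω) (fun ω => E ω)
  rw [Finset.card_univ] at this
  exact_mod_cast this


theorem pr_mono {E F : Ω → Prop} (h : ∀ ω, E ω → F ω) : pr E ≤ pr F := by
  unfold pr
  apply div_le_div_of_nonneg_right _ (Nat.cast_nonneg _)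
  have : (univ.filter (fun ω => E ω)) ⊆ (univ.filter (fun ω => F ω)) := by
    intro ω hω
    rw [Finset.mem_filter] at hω ⊢
    exact ⟨hω.1, h ω hω.2⟩
  exact_mod_cast Finset.card_le_card this


theorem pr_or (E F : Ω → Prop) : pr (fun ω => E ω ∨ F ω) ≤ pr E + pr F := by
  rw [aa_eq (fun ω => E ω ∨ F ω) ((univ.filter (fun ω => E ω)) ∪ (univ.filter (fun ω => F ω)))
    (by intro ω; simp only [Finset.mem_filter, Finset.mem_union, Finset.mem_univ, true_and])]
  unfold pr
  rw [← add_div]
  apply div_le_div_of_nonneg_right _ (Nat.cast_nonneg _)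
  exact_mod_cast Finset.card_union_le _ _


theorem pr_not [Nonempty Ω] (E : Ω → Prop) : pr (fun ω => ¬ E ω) = 1 - pr E := by
  rw [aa_eq (fun ω => ¬ E ω) (univ \ univ.filter (fun ω => E ω))
    (by intro ω; simp only [Finset.mem_filter, Finset.mem_sdiff, Finset.mem_univ, true_and])]
  unfold pr
  have hc : (Fintype.card Ω : ℝ) ≠ 0 := by
    have := Fintype.card_pos (α := Ω)
    positivity
  rw [eq_sub_iff_add_eq, ← add_div, div_eq_one_iff_eq hc]
  have h := Finset.card_sdiff_add_card_eq_card (Finset.filter_subset (fun ω => E ω) univ)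
  rw [Finset.card_univ] at h
  exact_mod_cast h


theorem pr_exists_le {ι : Type} (s : Finset ι) (E : ι → Ω → Prop) :
    pr (fun ω => ∃ i ∈ s, E i ω) ≤ ∑ i ∈ s, pr (E i) := by
  induction s using Finset.induction_on with
  | empty =>
    unfold pr
    simp
  | insert a s ha ih =>
    rw [Finset.sum_insert ha]
    calc pr (fun ω => ∃ i ∈ insert a s, E i ω)
        ≤ pr (fun ω => E a ω ∨ ∃ i ∈ s, E i ω) := by
          apply pr_mono
          rintro ω ⟨i, hi, hE⟩
          rcases Finset.mem_insert.1 hi with rfl | hi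
          · exact Or.inl hE
          · exact Or.inr ⟨i, hi, hE⟩
      _ ≤ pr (fun ω => E a ω) + pr (fun ω => ∃ i ∈ s, E i ω) := pr_or _ _
      _ ≤ pr (E a) + ∑ i ∈ s, pr (E i) := by
          have := ih
          linarith


theorem pr_equiv {Ω' : Type} [Fintype Ω'] (e : Ω ≃ Ω') (E : Ω' → Prop) :
    pr (fun ω => E (e ω)) = pr E := by
  unfold pr
  beta_reduce
  rw [Fintype.card_congr e]
  congr 2
  apply Finset.card_bij (fun ω _ => e ω)
  · intro ω hω
    rw [Finset.mem_filter] at hω ⊢
    exact ⟨Finset.mem_univ _, hω.2⟩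
  · intro a _ b _ h
    exact e.injective h
  · intro b hb
    rw [Finset.mem_filter] at hb
    refine ⟨e.symm b, ?_, e.apply_symm_apply b⟩
    rw [Finset.mem_filter]
    refine ⟨Finset.mem_univ _, ?_⟩
    rw [e.apply_symm_apply]
    exact hb.2


theorem pr_prod {Ω' : Type} [Fintype Ω'] (E : Ω → Prop) (F : Ω' → Prop) :
    pr (fun x : Ω × Ω' => E x.1 ∧ F x.2) = pr E * pr F := by
  rw [aa_eq (fun x : Ω × Ω' => E x.1 ∧ F x.2)
    ((univ.filter (fun ω => E ω)) ×ˢ (univ.filter (fun ω => F ω)))
    (by
      intro x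
      simp only [Finset.mem_filter, Finset.mem_product, Finset.mem_univ, true_and])]
  unfold pr
  rw [Finset.card_product, Fintype.card_prod]
  push_cast
  rw [div_mul_div_comm]


/-- Conditioning on the first component. -/
theorem pr_cond {Ω' : Type} [Fintype Ω'] (E : Ω × Ω' → Prop) (F : Ω → Prop) (c : ℝ) (hc : 0 ≤ c)
    (h1 : ∀ x y, E (x, y) → F x) (h2 : ∀ x, F x → pr (fun y => E (x, y)) ≤ c) :
    pr E ≤ c * pr F := by
  rcases Nat.eq_zero_or_pos (Fintype.card Ω) with h0 | h0
  · unfold pr
    rw [Fintype.card_prod, h0]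
    simp
  rcases Nat.eq_zero_or_pos (Fintype.card Ω') with h0' | h0'
  · have : pr E = 0 := by
      unfold pr
      rw [Fintype.card_prod, h0']
      simp
    rw [this]
    exact mul_nonneg hc (pr_nonneg F)
  have hΩ : (0:ℝ) < Fintype.card Ω := by exact_mod_cast h0
  have hΩ' : (0:ℝ) < Fintype.card Ω' := by exact_mod_cast h0'
  have hcard : ((univ.filter (fun x : Ω × Ω' => E x)).card : ℝ) ≤
      ((univ.filter (fun ω => F ω)).card : ℝ) * (c * Fintype.card Ω') := by
    have hs : (univ.filter (fun x : Ω × Ω' => E x)) ⊆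
        (univ.filter (fun ω => F ω)).biUnion
          (fun x => (univ.filter (fun y => E (x, y))).map
            ⟨fun y => (x, y), fun a b h => (Prod.mk.inj h).2⟩) := by
      rintro ⟨x, y⟩ hx
      rw [Finset.mem_filter] at hx
      rw [Finset.mem_biUnion]
      refine ⟨x, ?_, ?_⟩
      · rw [Finset.mem_filter]
        exact ⟨Finset.mem_univ _, h1 x y hx.2⟩
      · rw [Finset.mem_map]
        refine ⟨y, ?_, rfl⟩
        rw [Finset.mem_filter]
        exact ⟨Finset.mem_univ _, hx.2⟩
    have h3 := (Finset.card_le_card hs).trans (Finset.card_biUnion_le)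
    have h4 : ((univ.filter (fun x : Ω × Ω' => E x)).card : ℝ) ≤
        ∑ x ∈ univ.filter (fun ω => F ω), ((univ.filter (fun y => E (x, y))).card : ℝ) := by
      have h5 : ∀ x : Ω, ((univ.filter (fun y => E (x, y))).map
            ⟨fun y => (x, y), fun a b h => (Prod.mk.inj h).2⟩ : Finset (Ω × Ω')).card =
            (univ.filter (fun y => E (x, y))).card := fun x => Finset.card_map _
      simp only [h5] at h3
      exact_mod_cast h3
    refine h4.trans ?_
    rw [← nsmul_eq_mul, ← Finset.sum_const]
    apply Finset.sum_le_sum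
    intro x hx
    have h6 := h2 x (Finset.mem_filter.1 hx).2
    unfold pr at h6
    rwa [div_le_iff₀ hΩ'] at h6
  unfold pr
  rw [Fintype.card_prod, div_le_iff₀ (by push_cast; positivity)]
  push_cast
  calc ((univ.filter (fun x : Ω × Ω' => E x)).card : ℝ)
      ≤ ((univ.filter (fun ω => F ω)).card : ℝ) * (c * Fintype.card Ω') := hcard
    _ = c * (((univ.filter (fun ω => F ω)).card : ℝ) / (Fintype.card Ω : ℝ)) *
        ((Fintype.card Ω : ℝ) * (Fintype.card Ω' : ℝ)) := by
        field_simp

/-- Independent coordinates. -/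
theorem pr_pi {Z : Type} [Fintype Z] [Nonempty Z] {t : ℕ} (T : Finset (Fin t)) (E : Z → Prop) :
    pr (fun z : Fin t → Z => ∀ i ∈ T, E (z i)) = pr E ^ T.card := by
  have e1 : pr (fun z : Fin t → Z => ∀ i ∈ T, E (z i)) =
      ((Fintype.piFinset (fun i => if i ∈ T then univ.filter (fun x => E x) else univ)).card : ℝ) /
        Fintype.card (Fin t → Z) := by
    unfold pr
    congr 3
    ext z
    simp only [mem_filter, mem_univ, true_and, Fintype.mem_piFinset]
    constructor
    · intro h i
      by_cases hi : i ∈ T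
      · simp [hi, h i hi]
      · simp [hi]
    · intro h i hi
      have := h i
      simpa [hi] using this
  rw [e1, Fintype.card_piFinset]
  have hZ : (Fintype.card Z : ℝ) ≠ 0 := by
    exact_mod_cast Fintype.card_ne_zero
  have h2 : ∀ i : Fin t, ((if i ∈ T then univ.filter (fun x => E x) else univ : Finset Z).card : ℝ) =
      (if i ∈ T then (((univ.filter (fun x => E x)).card : ℝ) / Fintype.card Z) else 1) *
        Fintype.card Z := by
    intro i
    by_cases hi : i ∈ T
    · simp only [hi, if_true]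
      field_simp
    · simp only [hi, if_false, one_mul, card_univ]
  rw [Nat.cast_prod, prod_congr rfl (fun i _ => h2 i), prod_mul_distrib, prod_const, card_univ,
    Fintype.card_fin, Fintype.card_fun, Fintype.card_fin, Nat.cast_pow,
    mul_div_cancel_right₀ _ (pow_ne_zero _ hZ), ← prod_filter, prod_const]
  unfold pr
  congr 2
  ext i
  simp


/-- A surjective homomorphism is equidistributed. -/
theorem pr_hom {G H : Type} [AddCommGroup G] [Fintype G] [AddCommGroup H] [Fintype H] (φ : G →+ H)
    (hφ : Function.Surjective φ) (E : H → Prop) : pr (fun g => E (φ g)) = pr E := by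
  have hfib : ∀ h : H, (univ.filter (fun g => φ g = h)).card =
      (univ.filter (fun g => φ g = 0)).card := by
    intro h
    obtain ⟨g0, hg0⟩ := hφ h
    refine card_bij (fun g _ => g - g0) ?_ ?_ ?_
    · intro g hg
      simp only [mem_filter, mem_univ, true_and] at hg ⊢
      rw [map_sub, hg, hg0, sub_self]
    · intro a _ b _ hab
      exact sub_left_injective hab
    · intro g hg
      simp only [mem_filter, mem_univ, true_and] at hg ⊢
      exact ⟨g + g0, by rw [map_add, hg, hg0, zero_add], by simp⟩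
  set N := (univ.filter (fun g => φ g = 0)).card with hN
  have hcount : ∀ F : H → Prop, (univ.filter (fun g => F (φ g))).card =
      (univ.filter (fun h => F h)).card * N := by
    intro F
    rw [card_eq_sum_card_fiberwise (f := fun g => φ g) (t := univ.filter (fun h => F h))
      (fun g hg => by simpa using hg)]
    rw [sum_const_nat (m := N)]
    intro h hh
    rw [← hfib h]
    congr 1
    ext g
    simp only [mem_filter, mem_univ, true_and] at hh ⊢
    constructor
    · rintro ⟨_, h2⟩; exact h2
    · rintro rfl; exact ⟨hh, rfl⟩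
  have hcard : Fintype.card G = Fintype.card H * N := by
    have := hcount (fun _ => True)
    simpa using this
  have hN0 : (N : ℝ) ≠ 0 := by
    have : 0 < N := by
      rw [hN, card_pos]
      exact ⟨0, by simp⟩
    exact_mod_cast this.ne'
  unfold pr
  rw [hcount E, hcard]
  push_cast
  exact mul_div_mul_right _ _ hN0


/-- The sum of the coordinates in a nonempty set is uniform. -/
theorem pr_sum {Z : Type} [AddCommGroup Z] [Fintype Z] {t : ℕ} (w : Finset (Fin t))
    (hw : w.Nonempty) (E : Z → Prop) :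
    pr (fun z : Fin t → Z => E (∑ i ∈ w, z i)) = pr E := by
  obtain ⟨i0, hi0⟩ := hw
  exact pr_hom (G := Fin t → Z)
    { toFun := fun z => ∑ i ∈ w, z i
      map_zero' := by simp
      map_add' := fun a b => by simp [sum_add_distrib] }
    (by
      intro x
      refine ⟨Pi.single i0 x, ?_⟩
      show ∑ i ∈ w, (Pi.single i0 x : Fin t → Z) i = x
      rw [sum_pi_single' i0 x w, if_pos hi0]) E


/-- Sums over different nonempty sets are independent. -/
theorem pr_sum2 {Z : Type} [AddCommGroup Z] [Fintype Z] {t : ℕ} (w w' : Finset (Fin t))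
    (hw : w.Nonempty) (hw' : w'.Nonempty) (hne : w ≠ w') (E F : Z → Prop) :
    pr (fun z : Fin t → Z => E (∑ i ∈ w, z i) ∧ F (∑ i ∈ w', z i)) = pr E * pr F := by
  have hsurj : ∀ x y : Z, ∃ z : Fin t → Z, ∑ i ∈ w, z i = x ∧ ∑ i ∈ w', z i = y := by
    have key : ∀ a b : Finset (Fin t), b.Nonempty → (∃ i, i ∈ a ∧ i ∉ b) → ∀ x y : Z,
        ∃ z : Fin t → Z, ∑ i ∈ a, z i = x ∧ ∑ i ∈ b, z i = y := by
      intro a b hb hi x y
      obtain ⟨i, hia, hib⟩ := hi
      obtain ⟨j, hj⟩ := hb
      refine ⟨Pi.single j y + Pi.single i (x - ∑ k ∈ a, (Pi.single j y : Fin t → Z) k), ?_, ?_⟩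
      · simp only [Pi.add_apply, sum_add_distrib]
        rw [sum_pi_single' i (x - ∑ k ∈ a, (Pi.single j y : Fin t → Z) k) a, if_pos hia]
        abel
      · simp only [Pi.add_apply, sum_add_distrib]
        rw [sum_pi_single' i (x - ∑ k ∈ a, (Pi.single j y : Fin t → Z) k) b, if_neg hib,
          sum_pi_single' j y b, if_pos hj, add_zero]
    by_cases h : ∃ i, i ∈ w ∧ i ∉ w'
    · exact key w w' hw' h
    · push Not at h
      have h' : ∃ i, i ∈ w' ∧ i ∉ w := by
        by_contra hcon
        push Not at hcon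
        exact hne (Subset.antisymm h hcon)
      intro x y
      obtain ⟨z, h1, h2⟩ := key w' w hw h' y x
      exact ⟨z, h2, h1⟩
  rw [← pr_prod E F]
  exact pr_hom (G := Fin t → Z) (H := Z × Z)
    { toFun := fun z => (∑ i ∈ w, z i, ∑ i ∈ w', z i)
      map_zero' := by simp
      map_add' := fun a b => by simp [sum_add_distrib] }
    (by
      rintro ⟨x, y⟩
      obtain ⟨z, h1, h2⟩ := hsurj x y
      exact ⟨z, by simp [h1, h2]⟩) (fun x => E x.1 ∧ F x.2)

end

end Pool.Agent.XCBip
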